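import Pool.Agent.H116.HL.Comp2

/-!
# Chains of compositions at a fixed resolution of the slopes
-/

set_option linter.unusedSectionVars false
set_option linter.unusedVariables false
set_option maxHeartbeats 4000000

namespace Pool.Agent.H116.HL

open Finset Pool.Agent.N35.HL

/-- a finer resolution of the slopes -/
theorem hasO_mono {Δ N E P Q T L C : ℕ} (h : HasO Δ N E P Q T L C) (hQ : 1 ≤ Q) (hT : 1 ≤ T)
    {m : ℕ} (hm : 1 ≤ m) : HasO Δ N E P Q T L (C * m) := by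
  obtain ⟨hP, hE, A, R, H, _, _, _, O, k, K, hO, hA, hR, hH⟩ := h
  have hQr : (0:ℝ) < Q := by exact_mod_cast hQ
  have hTr : (0:ℝ) < T := by exact_mod_cast hT
  refine ⟨hP, hE, A, R, H, inferInstance, inferInstance, inferInstance, O, k, K, ?_, hA, hR, hH⟩
  have h1 := good_mono hO (q' := 1 / (Q:ℝ)) (Dl' := 1 / (T:ℝ)) (by positivity) le_rfl le_rfl
    hO.hqD hm
  rw [← mul_assoc]
  exact h1

/-- an outer block whose slopes are multiples of `2 ^ (-S)`, with sizes given by exponents -/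
def Ch (S Δ t τ q b l : ℕ) (β : ℝ) : Prop :=
  ∃ N E P : ℕ, HasO Δ N E P (2 ^ q) (2 ^ τ) (3 ^ l) (2 ^ (S - τ)) ∧ τ ≤ S ∧ τ ≤ q ∧
    N ≤ 2 ^ t ∧ P ≤ 2 ^ b ∧ 2500 / 10506 * β * N * 5253 ≤ 2500 * E

theorem Ch.mono {S Δ t τ q b l t' τ' q' b' : ℕ} {β β' : ℝ} (h : Ch S Δ t τ q b l β)
    (ht : t ≤ t') (hτ : τ ≤ τ') (hτS : τ' ≤ S) (hq : q ≤ q') (hτq : τ' ≤ q') (hb : b ≤ b')
    (hβ : β' ≤ β) : Ch S Δ t' τ' q' b' l β' := by
  obtain ⟨N, E, P, ⟨hP, hE, A, R, H, _, _, _, O, k, K, hO, hA, hR, hH⟩, -, -, hN, hPb, hr⟩ := h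
  refine ⟨N, E, P, ⟨hP, hE, A, R, H, inferInstance, inferInstance, inferInstance, O, k, K, ?_,
    hA, hR, hH⟩, hτS, hτq, hN.trans (Nat.pow_le_pow_right (by norm_num) ht),
    hPb.trans (Nat.pow_le_pow_right (by norm_num) hb), ?_⟩
  · have h1 := good_mono hO (q' := 1 / ((2 ^ q' : ℕ) : ℝ)) (Dl' := 1 / ((2 ^ τ' : ℕ) : ℝ))
      (by positivity)
      (one_div_le_one_div_of_le (by positivity)
        (by exact_mod_cast Nat.pow_le_pow_right (by norm_num) hq))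
      (one_div_le_one_div_of_le (by positivity)
        (by exact_mod_cast Nat.pow_le_pow_right (by norm_num) hτ))
      (one_div_le_one_div_of_le (by positivity)
        (by exact_mod_cast Nat.pow_le_pow_right (by norm_num) hτq)) (m := 1) le_rfl
    rw [mul_one, ← pow_add, show τ + (S - τ) = S by omega] at h1
    rw [← pow_add 2 τ', show τ' + (S - τ') = S by omega]
    exact h1
  · refine le_trans ?_ hr
    have h0 : (0:ℝ) ≤ N := Nat.cast_nonneg _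
    have := mul_le_mul_of_nonneg_right hβ h0
    nlinarith

theorem Ch.le_q {S Δ t τ q b l : ℕ} {β : ℝ} (h : Ch S Δ t τ q b l β) : τ ≤ q := by
  obtain ⟨N, E, P, hO, hτS, hτq, -⟩ := h
  exact hτq

/-- two crossing lines -/
theorem Ch.start {S : ℕ} (hS : 1 ≤ S) : Ch S 1 1 1 2 0 0 1 := by
  refine ⟨2, 1, 1, ?_, hS, by norm_num, by norm_num, by norm_num, by norm_num⟩
  have h1 := hasO_mono (HasO.start (Δ := 1) le_rfl) (by norm_num) (by norm_num)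
    (m := 2 ^ (S - 1)) Nat.one_le_two_pow
  simpa using h1

/-- one composition -/
theorem Ch.comp {S Δ₀ t τ q b l : ℕ} {β : ℝ} (h : Ch S Δ₀ t τ q b l β) (hβ : 0 ≤ β)
    (hΔ₀ : 1 ≤ Δ₀) {g E₂ P₂ Rz Δ U M t₂ r₂ w₂ b₂ : ℕ} {β₂ : ℝ} (hI : HasI g E₂ P₂ Rz Δ U M)
    (hg : g ≤ 2 ^ t₂) (hR : Rz ≤ 2 ^ r₂) (hUM : U * M ≤ 2 ^ w₂) (hP : 50 * P₂ ≤ 2 ^ b₂)
    (hβ₂ : 0 ≤ β₂) (hr : β₂ * g * 5253 ≤ 2500 * E₂) {δ δ' : ℕ} (hδ : Δ₀ ≤ 2 ^ δ)
    (hδ' : Δ₀ ≤ 2 ^ δ' * Δ) (hδδ : δ' ≤ δ)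
    (hS : τ + 74 + δ + w₂ + 3 * r₂ + 4 * b + b₂ ≤ S) :
    Ch S Δ (t + (18 + t₂ + r₂ + 2 * b)) (τ + (33 + r₂ + 2 * b + δ'))
      (q + (99 + w₂ + 3 * r₂ + 2 * δ + 5 * b + b₂)) (b + b₂) (l + 1) (β * β₂) := by
  obtain ⟨N, E, P, hO, hτS, hτq, hN, hPb, hE⟩ := h
  have hP₂ : 1 ≤ P₂ := hI.1
  have hRz := hI.Rz_pos
  have hΔ := hI.Δ_pos
  have hU := hI.U_pos
  have hM := hI.M_pos
  have hPb₂ : P₂ ≤ 2 ^ b₂ := by omega
  set τ' := τ + (33 + r₂ + 2 * b + δ') with hτ'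
  set q' := q + (99 + w₂ + 3 * r₂ + 2 * δ + 5 * b + b₂) with hq'
  have hτ'S : τ' ≤ S := by omega
  have hτ'q : τ' ≤ q' := by omega
  have key := comp2 hO hI hΔ₀ Nat.one_le_two_pow Nat.one_le_two_pow Nat.one_le_two_pow
    (Q' := 2 ^ q') (T' := 2 ^ τ') (C' := 2 ^ (S - τ')) (m := 1)
    Nat.one_le_two_pow Nat.one_le_two_pow (by
      rw [← pow_add, ← pow_add, mul_one]
      congr 1
      omega) (by
      calc 2 ^ τ * (2048000 * Rz * (50 * P) ^ 2) * Δ₀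
          = (2048000 * 50 ^ 2) * (2 ^ τ * Rz * P ^ 2 * Δ₀) := by ring
        _ ≤ 2 ^ 33 * (2 ^ τ * 2 ^ r₂ * (2 ^ b) ^ 2 * (2 ^ δ' * Δ)) := by
            apply Nat.mul_le_mul (by norm_num)
            apply Nat.mul_le_mul _ hδ'
            exact Nat.mul_le_mul (Nat.mul_le_mul_left _ hR) (Nat.pow_le_pow_left hPb 2)
        _ = 2 ^ τ' * Δ := by
            rw [hτ']
            rw [← pow_mul]
            rw [show τ + (33 + r₂ + 2 * b + δ') = 33 + (τ + r₂ + b * 2 + δ') by ring,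
              pow_add 2 33, pow_add, pow_add, pow_add]
            ring) (by
      calc 2 ^ q * ((51200 * Δ₀ * P) * (2 ^ 13 * (50 * P)) *
            (2 ^ 18 * U * Rz * (50 * (50 * P * P₂))) * (16 * M * Rz) *
            (2 * (51200 * Δ₀ * P) * (500 * Rz * (50 * P))))
          = (51200 * 2 ^ 13 * 50 * 2 ^ 18 * 50 * 50 * 16 * 2 * 51200 * 500 * 50) *
            (2 ^ q * Δ₀ ^ 2 * (U * M) * Rz ^ 3 * P ^ 5 * P₂) := by ring
        _ ≤ 2 ^ 99 * (2 ^ q * (2 ^ δ) ^ 2 * 2 ^ w₂ * (2 ^ r₂) ^ 3 * (2 ^ b) ^ 5 * 2 ^ b₂) := by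
            apply Nat.mul_le_mul (by norm_num)
            apply Nat.mul_le_mul _ hPb₂
            apply Nat.mul_le_mul _ (Nat.pow_le_pow_left hPb 5)
            apply Nat.mul_le_mul _ (Nat.pow_le_pow_left hR 3)
            apply Nat.mul_le_mul _ hUM
            exact Nat.mul_le_mul_left _ (Nat.pow_le_pow_left hδ 2)
        _ = 2 ^ q' := by
            rw [← pow_mul, ← pow_mul, ← pow_mul, ← pow_add, ← pow_add, ← pow_add, ← pow_add,
              ← pow_add, ← pow_add]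
            congr 1
            rw [hq']; ring)
    (Nat.pow_le_pow_right (by norm_num) hτ'q) (by
      rw [← pow_add 2 τ', show τ' + (S - τ') = S by omega]
      calc 2 ^ 74 * (2 ^ τ * Δ₀ * (M * U) * Rz ^ 3 * P ^ 4 * P₂)
          ≤ 2 ^ 74 * (2 ^ τ * 2 ^ δ * 2 ^ w₂ * (2 ^ r₂) ^ 3 * (2 ^ b) ^ 4 * 2 ^ b₂) := by
            apply Nat.mul_le_mul_left
            apply Nat.mul_le_mul _ hPb₂
            apply Nat.mul_le_mul _ (Nat.pow_le_pow_left hPb 4)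
            apply Nat.mul_le_mul _ (Nat.pow_le_pow_left hR 3)
            apply Nat.mul_le_mul _ (by rw [mul_comm]; exact hUM)
            exact Nat.mul_le_mul_left _ hδ
        _ = 2 ^ (τ + 74 + δ + w₂ + 3 * r₂ + 4 * b + b₂) := by
            rw [← pow_mul, ← pow_mul, ← pow_add, ← pow_add, ← pow_add, ← pow_add, ← pow_add,
              ← pow_add]
            congr 1
            ring
        _ ≤ 2 ^ S := Nat.pow_le_pow_right (by norm_num) hS)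
  rw [show 3 * 3 ^ l = 3 ^ (l + 1) by ring] at key
  refine ⟨_, _, _, key, hτ'S, hτ'q, ?_, ?_, ?_⟩
  · calc N * (g * Rz * 260100) * P ^ 2
        ≤ 2 ^ t * (2 ^ t₂ * 2 ^ r₂ * 2 ^ 18) * (2 ^ b) ^ 2 := by
          apply Nat.mul_le_mul _ (Nat.pow_le_pow_left hPb 2)
          apply Nat.mul_le_mul hN
          exact Nat.mul_le_mul (Nat.mul_le_mul hg hR) (by norm_num)
      _ = 2 ^ (t + (18 + t₂ + r₂ + 2 * b)) := by
          rw [← pow_mul, ← pow_add, ← pow_add, ← pow_add, ← pow_add]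
          congr 1; ring
  · calc 50 * P * P₂ = P * (50 * P₂) := by ring
      _ ≤ 2 ^ b * 2 ^ b₂ := Nat.mul_le_mul hPb hP
      _ = 2 ^ (b + b₂) := (pow_add _ _ _).symm
  · have a1 : (2500 / 10506 * β * N * 5253) * (β₂ * g * 5253) ≤ (2500 * E) * (2500 * E₂) :=
      mul_le_mul hE hr (by positivity) (by positivity)
    have a2 : (0:ℝ) ≤ Rz * (P:ℝ) ^ 2 * 50 := by positivity
    have a3 := mul_le_mul_of_nonneg_right a1 a2
    push_cast
    have a4 : 0 ≤ β * N * (β₂ * g) * (Rz * (P:ℝ) ^ 2) := by positivity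
    have e5 : 2500 / 10506 * (β * β₂) * (N * (g * Rz * 260100) * (P:ℝ) ^ 2) * 5253 =
      (2500 / 10506 * 260100 * 5253) * (β * N * (β₂ * g) * (Rz * (P:ℝ) ^ 2)) := by ring
    have e6 : (2500 / 10506 * β * N * 5253) * (β₂ * g * 5253) * (Rz * (P:ℝ) ^ 2 * 50) =
      (2500 / 10506 * 5253 * 5253 * 50) * (β * N * (β₂ * g) * (Rz * (P:ℝ) ^ 2)) := by ring
    have e7 : (2500 * (E:ℝ)) * (2500 * E₂) * (Rz * (P:ℝ) ^ 2 * 50) =
      2500 * (E * (125000 * E₂ * Rz * (P:ℝ) ^ 2)) := by ring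
    rw [e6, e7] at a3
    rw [e5]
    refine le_trans ?_ a3
    apply mul_le_mul_of_nonneg_right _ a4
    norm_num

/-- `n + 1` compositions with copies of the same inner block -/
theorem Ch.rep {S Δ₀ t τ q b l : ℕ} {β : ℝ} (h : Ch S Δ₀ t τ q b l β) (hβ : 0 ≤ β)
    (hΔ₀ : 1 ≤ Δ₀) {t₂ r₂ w₂ b₂ : ℕ} {β₂ : ℝ} (hL : Lv t₂ r₂ w₂ b₂ β₂) (hβ₂ : 0 ≤ β₂)
    {δ c : ℕ} (hδ : Δ₀ ≤ 2 ^ δ) (n : ℕ) (hc : b + (n + 1) * b₂ ≤ c)
    (hS : τ + δ + (n + 1) * (33 + r₂ + 2 * c) + (74 + δ + w₂ + 4 * r₂ + 4 * c + b₂) ≤ S) :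
    ∃ Δ, 1 ≤ Δ ∧ Δ ≤ 2 ^ r₂ ∧ Ch S Δ (t + (n + 1) * (18 + t₂ + r₂ + 2 * c))
      (τ + δ + (n + 1) * (33 + r₂ + 2 * c))
      (q + 2 * δ + (n + 1) * (99 + w₂ + 5 * r₂ + 5 * c + b₂)) (b + (n + 1) * b₂)
      (l + (n + 1)) (β * β₂ ^ (n + 1)) := by
  obtain ⟨g, E₂, P₂, Rz, Δ, U, M, hI, hg, hR, hUM, hP, hr⟩ := hL
  have hΔ := hI.Δ_pos
  have hΔR := hI.Δ_le
  refine ⟨Δ, hΔ, hΔR.trans hR, ?_⟩
  have hτq := h.le_q
  have hYZ : ∀ k : ℕ, τ + δ + k * (33 + r₂ + 2 * c) ≤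
      q + 2 * δ + k * (99 + w₂ + 5 * r₂ + 5 * c + b₂) := by
    intro k
    have : k * (33 + r₂ + 2 * c) ≤ k * (99 + w₂ + 5 * r₂ + 5 * c + b₂) :=
      Nat.mul_le_mul_left _ (by omega)
    omega
  have hYZ' := hYZ (n + 1)
  induction n with
  | zero =>
    have hb : b ≤ c := by omega
    have h1 := h.comp hβ hΔ₀ hI hg hR hUM hP hβ₂ hr hδ (δ' := δ)
      (hδ.trans (Nat.le_mul_of_pos_right _ hΔ)) le_rfl (by omega)
    refine h1.mono (by omega) (by omega) (by omega) (by omega) (by omega) (by omega) ?_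
    simp
  | succ n ih =>
    have e1 : (n + 1 + 1) * b₂ = (n + 1) * b₂ + b₂ := by ring
    have e2 : (n + 1 + 1) * (33 + r₂ + 2 * c) = (n + 1) * (33 + r₂ + 2 * c) + (33 + r₂ + 2 * c) := by
      ring
    have e3 : (n + 1 + 1) * (18 + t₂ + r₂ + 2 * c) =
      (n + 1) * (18 + t₂ + r₂ + 2 * c) + (18 + t₂ + r₂ + 2 * c) := by ring
    have e4 : (n + 1 + 1) * (99 + w₂ + 5 * r₂ + 5 * c + b₂) =
      (n + 1) * (99 + w₂ + 5 * r₂ + 5 * c + b₂) + (99 + w₂ + 5 * r₂ + 5 * c + b₂) := by ring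
    rw [e1] at hc
    rw [e2] at hS
    have h2 := ih (by omega) (by omega) (hYZ _)
    rw [e2, e4] at hYZ'
    have h3 := h2.comp (by positivity) hΔ hI hg hR hUM hP hβ₂ hr (hΔR.trans hR) (δ' := 0)
      (by simp) (Nat.zero_le _) (by omega)
    rw [e1, e2, e3, e4]
    refine (show Ch _ _ _ _ _ _ (l + (n + 1 + 1)) _ from h3).mono (by omega) (by omega)
      (by omega) (by omega) (by omega) (by omega) ?_
    rw [pow_succ]
    exact le_of_eq (by ring)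

end Pool.Agent.H116.HL
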