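import Pool.Graph.R_pool_sql_team_seeded_63374d34.N35.HL.Fin

/-!
# Composition of an outer block with a varying inner block

The library composes an outer block with copies of one inner block, keeping the slope differences
of the inner block fixed.  Here the inner block may change from one composition to the next, and
the resolution of the slopes may be prescribed in advance.
-/

set_option linter.unusedSectionVars false
set_option linter.unusedVariables false
set_option maxHeartbeats 4000000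

namespace Pool.Agent.H116.HL

open Finset Pool.Agent.N35.HL

/-- weakening of the conditions on an outer block -/
theorem good_mono {A R H : Type} [Fintype A] [Fintype H] {O : Out A R H} {k K : ℕ}
    {φ q Dl L : ℝ} {Rd : ℕ} (h : O.Good k K φ q Dl L Rd) {q' Dl' : ℝ} (hq0 : 0 < q')
    (hq : q' ≤ q) (hD : Dl' ≤ Dl) (hqD : q' ≤ Dl') {m : ℕ} (hm : 1 ≤ m) :
    O.Good k K φ q' Dl' L (Rd * m) := by
  have hmr : (1:ℝ) ≤ m := by exact_mod_cast hm
  refine
    { hq := hq0
      hqD := hqD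
      hL := h.hL
      hRd := Nat.mul_pos h.hRd hm
      tie := h.tie
      hD := fun e => hD.trans (h.hD e)
      slopes := fun c => ?_
      bs := h.bs
      bt := h.bt
      bX := h.bX
      bxs := h.bxs
      g1 := fun e c h1 h2 => hq.trans (h.g1 e c h1 h2)
      g2 := fun e c h1 h2 => (mul_le_mul_of_nonneg_right hq (abs_nonneg _)).trans (h.g2 e c h1 h2)
      w := fun e f h1 => hq.trans (h.w e f h1)
      level := h.level
      real := h.real
      rd1 := h.rd1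
      rd2 := h.rd2
      inj := h.inj
      dd := fun c g => (h.dd c g).imp id (fun h1 => ⟨hD.trans h1.1, h1.2⟩)
      own := fun e c g h1 h2 => ?_
      far := fun e c g h1 h2 h3 => (h.far e c g h1 h2 h3).imp (fun h4 => hq.trans h4) id
      dich := h.dich
      th := fun e c g h1 h2 h3 => ?_
      slots := h.slots }
  · obtain ⟨z, hz⟩ := h.slopes c
    refine ⟨z * m, ?_⟩
    push_cast
    rw [← hz]; ring
  · obtain ⟨a1, a2, a3⟩ := h.own e c g h1 h2
    exact ⟨a1, hq.trans a2, hq.trans a3⟩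
  · refine (h.th e c g h1 h2 h3).trans ?_
    apply mul_le_mul_of_nonneg_right _ (abs_nonneg _)
    push_cast
    have : (0:ℝ) ≤ Rd := Nat.cast_nonneg _
    nlinarith

/-- the parameters of a composition; the preceding inner block had slope differences `Δ₀` -/
noncomputable def prm2 (Δ₀ Δ P Q U Rz P₂ Rd : ℕ) : Prm where
  Nx := 50 * P
  V₁ := 2500 * Rz * P
  Rz := Rz
  Δ := Δ
  Rd := Rd
  φ := 1 / (51200 * Δ₀ * P)
  lam := 1 / (500 * Rz * (50 * P))
  κ := 1 / (2 ^ 18 * U * Rz * (50 * (50 * P * P₂)))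
  ε := (1 / (51200 * Δ₀ * P)) * (1 / Q) / (2 ^ 13 * (50 * P))

/-- composition with an inner block that differs from the preceding one -/
theorem comp2 {Δ₀ N E P Q T L C g E₂ P₂ Rz Δ U M : ℕ} (hO : HasO Δ₀ N E P Q T L C)
    (hI : HasI g E₂ P₂ Rz Δ U M) (hΔ₀ : 1 ≤ Δ₀) (hC1 : 1 ≤ C) (hQ1 : 1 ≤ Q) (hT1 : 1 ≤ T)
    {Q' T' C' m : ℕ} (hT'1 : 1 ≤ T') (hC'1 : 1 ≤ C') (hdiv : T' * C' = T * C * m)
    (hT' : T * (2048000 * Rz * (50 * P) ^ 2) * Δ₀ ≤ T' * Δ)
    (hQ' : Q * ((51200 * Δ₀ * P) * (2 ^ 13 * (50 * P)) * (2 ^ 18 * U * Rz * (50 * (50 * P * P₂))) *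
        (16 * M * Rz) * (2 * (51200 * Δ₀ * P) * (500 * Rz * (50 * P)))) ≤ Q')
    (hTQ : T' ≤ Q')
    (hprec : 2 ^ 74 * (T * Δ₀ * (M * U) * Rz ^ 3 * P ^ 4 * P₂) ≤ T' * C') :
    HasO Δ (N * (g * Rz * 260100) * P ^ 2) (E * (125000 * E₂ * Rz * P ^ 2)) (50 * P * P₂)
      Q' T' (3 * L) C' := by
  obtain ⟨hP, hE, A, R, H, _, _, _, O, k₁, K₁, hO, hA, hR, hH⟩ := hO
  obtain ⟨hP₂, hE₂, G, R₂, H₂, _, _, _, I, k₂, hI, hG, hR₂, hH₂⟩ := hI
  have hRne : Nonempty R₂ := Fintype.card_pos_iff.mp (by omega)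
  obtain ⟨r⟩ := hRne
  obtain ⟨K, -, hK⟩ := Finset.exists_subset_card_eq
    (show k₂ ≤ (Finset.univ : Finset G).card from by rw [Finset.card_univ]; exact hI.k_le r)
  set Rd : ℕ := T' * C' with hRd
  set p := prm2 Δ₀ Δ P Q U Rz P₂ Rd with hp
  -- positivity of all parameters
  have hΔ := hI.hΔ
  have hΔR := hI.hΔR
  have hRz : 1 ≤ Rz := hΔ.trans hΔR
  have hU1 : (1:ℝ) ≤ U := hI.hU
  have hM1 : (1:ℝ) ≤ M := hI.hM
  have hPr : (1:ℝ) ≤ P := by exact_mod_cast hP
  have hP₂r : (1:ℝ) ≤ P₂ := by exact_mod_cast hP₂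
  have hΔr : (1:ℝ) ≤ Δ := by exact_mod_cast hΔ
  have hΔ₀r : (1:ℝ) ≤ Δ₀ := by exact_mod_cast hΔ₀
  have hRzr : (1:ℝ) ≤ Rz := by exact_mod_cast hRz
  have hΔRr : (Δ:ℝ) ≤ Rz := by exact_mod_cast hΔR
  have hQr : (1:ℝ) ≤ Q := by exact_mod_cast hQ1
  have hTr : (1:ℝ) ≤ T := by exact_mod_cast hT1
  have hT'r : (1:ℝ) ≤ T' := by exact_mod_cast hT'1
  have hC'r : (1:ℝ) ≤ C' := by exact_mod_cast hC'1
  have hTQr : (T':ℝ) ≤ Q' := by exact_mod_cast hTQ
  have hP0 : (0:ℝ) < P := by linarith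
  have hP₂0 : (0:ℝ) < P₂ := by linarith
  have hΔ0 : (0:ℝ) < Δ := by linarith
  have hΔ₀0 : (0:ℝ) < Δ₀ := by linarith
  have hRz0 : (0:ℝ) < Rz := by linarith
  have hQ0 : (0:ℝ) < Q := by linarith
  have hT0 : (0:ℝ) < T := by linarith
  have hT'0 : (0:ℝ) < T' := by linarith
  have hQ'0 : (0:ℝ) < Q' := by linarith
  have hU0 : (0:ℝ) < U := by linarith
  have hM0 : (0:ℝ) < M := by linarith
  have hC'0 : (0:ℝ) < C' := by linarith
  have hRd1 : 1 ≤ Rd := Nat.mul_pos hT'1 hC'1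
  have hT'2 : (T:ℝ) * (2048000 * Rz * (50 * P) ^ 2) * Δ₀ ≤ T' * Δ := by exact_mod_cast hT'
  have hprec2 : (2:ℝ) ^ 74 * (T * Δ₀ * (M * U) * Rz ^ 3 * P ^ 4 * P₂) ≤ T' * C' := by
    exact_mod_cast hprec
  have eV : (p.V : ℝ) = Rz * (50 * P) + 2500 * Rz * P := by
    have : p.V = Rz * (50 * P) + 2500 * Rz * P := rfl
    rw [this]; push_cast; ring
  have hφe : p.φ = 1 / (51200 * Δ₀ * P) := rfl
  have hle : p.lam = 1 / (500 * Rz * (50 * P)) := rfl
  have hκe : p.κ = 1 / (2 ^ 18 * U * Rz * (50 * (50 * P * P₂))) := rfl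
  have hεe : p.ε = (1 / (51200 * Δ₀ * P)) * (1 / Q) / (2 ^ 13 * (50 * P)) := rfl
  have hNxe : (p.Nx : ℝ) = 50 * P := by
    have : p.Nx = 50 * P := rfl
    rw [this]; push_cast; ring
  have hRze : (p.Rz : ℝ) = Rz := rfl
  have hΔe : (p.Δ : ℝ) = Δ := rfl
  have hRde : (p.Rd : ℝ) = Rd := rfl
  have hδe : p.δ = 1 / (51200 * Δ₀ * P) * (1 / (500 * Rz * (50 * P))) / 2 := rfl
  have hOK : p.OK (1 / (51200 * Δ * ((50 * P * P₂ : ℕ) : ℝ))) (1 / Q) (1 / T) U M := by
    refine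
      { hNx := by change 1 ≤ 50 * P; omega
        hΔ := hΔ
        hΔR := hΔR
        hRd := hRd1
        hq := by positivity
        hq1 := by rw [div_le_one hQ0]; exact hQr
        hqD := hO.hqD
        hφ0 := by rw [hφe]; positivity
        hφ1 := ?_
        hl0 := by rw [hle]; positivity
        hl1 := ?_
        hU := hU1
        hM := hM1
        hκ0 := by rw [hκe]; positivity
        hκ1 := ?_
        hκ2 := ?_
        hφ' := by positivity
        hφ'1 := ?_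
        hε0 := by rw [hεe]; positivity
        hε1 := ?_
        hrd := ?_ }
    · rw [hφe, hNxe, div_mul_eq_mul_div, div_le_div_iff₀ (by positivity) (by norm_num)]
      have : (1:ℝ) * P ≤ Δ₀ * P := mul_le_mul_of_nonneg_right hΔ₀r hP0.le
      nlinarith
    · rw [hle, hNxe, hRze, eV, div_mul_eq_mul_div, div_le_div_iff₀ (by positivity) (by norm_num)]
      have : (1:ℝ) ≤ Rz * P := by nlinarith
      nlinarith
    · rw [hκe, hle, div_mul_eq_mul_div, div_div, div_le_div_iff₀ (by positivity) (by positivity)]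
      have a1 : (U:ℝ) + 1 ≤ 2 * U := by linarith
      have a2 : (0:ℝ) < Rz * P := by positivity
      have a3 : (Rz * P : ℝ) * 1 ≤ Rz * P * P₂ := mul_le_mul_of_nonneg_left hP₂r a2.le
      have a4 : (1 * ((U:ℝ) + 1)) * (500 * Rz * (50 * P) * 64) ≤
          (2 * U) * (500 * Rz * (50 * P) * 64) := by
        apply mul_le_mul_of_nonneg_right _ (by positivity)
        linarith
      refine a4.trans ?_
      have a5 : (U:ℝ) * (Rz * P * 1) ≤ U * (Rz * P * P₂) := mul_le_mul_of_nonneg_left a3 hU0.le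
      have a6 : (0:ℝ) < U * (Rz * P * P₂) := by positivity
      nlinarith
    · rw [hκe, hΔe]
      have a1 : (U:ℝ) + 1 ≤ 2 * U := by linarith
      have e1 : (1 / (51200 * (Δ:ℝ) * ((50 * P * P₂ : ℕ) : ℝ))) * Δ = 1 / (51200 * (50 * P * P₂)) := by
        push_cast
        field_simp
      rw [e1, div_mul_eq_mul_div, mul_div_assoc', div_le_div_iff₀ (by positivity) (by positivity)]
      have a2 : (0:ℝ) < P * P₂ := by positivity
      have a3 : (U * (P * P₂) : ℝ) * 1 ≤ U * (P * P₂) * Rz :=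
        mul_le_mul_of_nonneg_left hRzr (by positivity)
      have a4 : (128 * (1 * ((U:ℝ) + 1))) * (51200 * (50 * P * P₂)) ≤
          (128 * (2 * U)) * (51200 * (50 * P * P₂)) := by
        apply mul_le_mul_of_nonneg_right _ (by positivity)
        linarith
      refine a4.trans ?_
      nlinarith
    · rw [hΔe, hNxe]
      have e1 : (1 / (51200 * (Δ:ℝ) * ((50 * P * P₂ : ℕ) : ℝ))) * Δ = 1 / (51200 * (50 * P * P₂)) := by
        push_cast
        field_simp
      rw [e1, mul_div_assoc', div_mul_eq_mul_div, div_le_one (by positivity)]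
      have a3 : (P : ℝ) * 1 ≤ P * P₂ := mul_le_mul_of_nonneg_left hP₂r hP0.le
      nlinarith
    · rw [hεe, hφe, hNxe]
      have e1 : 400 * ((1 / (51200 * (Δ₀:ℝ) * P)) * (1 / Q) / (2 ^ 13 * (50 * P)) * (50 * P + 6)) =
        (1 / (51200 * Δ₀ * P) * (1 / Q)) * (400 * (50 * P + 6) / (2 ^ 13 * (50 * P))) := by ring
      rw [e1]
      have h1 : 400 * (50 * (P:ℝ) + 6) / (2 ^ 13 * (50 * P)) ≤ 1 := by
        rw [div_le_one (by positivity)]; nlinarith
      have h2 : 0 ≤ (1 / (51200 * (Δ₀:ℝ) * P) * (1 / Q)) := by positivity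
      nlinarith
    · rw [hRde, hRze, hNxe, hδe, hκe, hRd]
      push_cast
      have e1 : (T':ℝ) * C' * (1 / T) *
          (1 / (51200 * Δ₀ * P) * (1 / (500 * Rz * (50 * P))) / 2 *
          (1 / (2 ^ 18 * U * Rz * (50 * (50 * P * P₂))))) =
          (T' * C') / ((51200 * 500 * 50 * 2 * 2 ^ 18 * 2500) *
            (T * Δ₀ * U * Rz ^ 2 * P ^ 3 * P₂)) := by
        field_simp
        try ring_nf
      rw [e1, le_div_iff₀ (by positivity)]
      have h2 : (50 * (P:ℝ) + 2) ≤ 52 * P := by linarith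
      refine le_trans ?_ hprec2
      set X : ℝ := (T:ℝ) * Δ₀ * U * Rz ^ 2 * P ^ 3 * P₂ with hX
      have hX0 : 0 < X := by positivity
      have e3 : (T:ℝ) * Δ₀ * (M * U) * Rz ^ 3 * P ^ 4 * P₂ = ((M:ℝ) * Rz * P) * X := by
        rw [hX]; ring
      rw [e3]
      have h5 : (0:ℝ) ≤ (M:ℝ) * Rz := by positivity
      have h6 : 0 ≤ ((M:ℝ) * Rz * P) * X := by positivity
      have h4 : ((M:ℝ) * Rz * (50 * P + 2)) * X ≤ ((M:ℝ) * Rz * (52 * P)) * X :=
        mul_le_mul_of_nonneg_right (mul_le_mul_of_nonneg_left h2 h5) hX0.le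
      have e4 : ((M:ℝ) * Rz * (52 * P)) * X = 52 * (((M:ℝ) * Rz * P) * X) := by ring
      rw [e4] at h4
      have e5 : 200 * ((M:ℝ) * Rz * (50 * P + 2)) * ((51200 * 500 * 50 * 2 * 2 ^ 18 * 2500) * X) =
        (200 * (51200 * 500 * 50 * 2 * 2 ^ 18 * 2500)) * (((M:ℝ) * Rz * (50 * P + 2)) * X) := by
        ring
      rw [e5]
      have h7 := mul_le_mul_of_nonneg_left h4
        (by norm_num : (0:ℝ) ≤ 200 * (51200 * 500 * 50 * 2 * 2 ^ 18 * 2500))
      refine h7.trans ?_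
      rw [← mul_assoc]
      apply mul_le_mul_of_nonneg_right _ h6
      norm_num
  obtain ⟨k, K', hgood⟩ := comp_good (K := K) (p := p) (m := m) hO hI hOK hK (by
      change Rd = T * C * _
      rw [hRd]; exact hdiv)
  have eq1 : p.qs M * p.δ / 4 = 1 / (Q * ((51200 * Δ₀ * P) * (2 ^ 13 * (50 * P)) *
      (2 ^ 18 * U * Rz * (50 * (50 * P * P₂))) *
        (16 * M * Rz) * (2 * (51200 * Δ₀ * P) * (500 * Rz * (50 * P))))) := by
    have e1 : p.qs M = p.ε * p.κ / (4 * M * Rz) := rfl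
    rw [e1, hεe, hκe, hδe]
    field_simp
    try norm_num
  have eq2 : (1:ℝ) / T * (p.δ * p.Δ) / 2 =
      Δ / (T * (2048000 * Rz * (50 * P) ^ 2) * Δ₀) := by
    rw [hδe, hΔe]
    field_simp
    try norm_num
  have hX0 : (0:ℝ) < Q * ((51200 * Δ₀ * P) * (2 ^ 13 * (50 * P)) *
      (2 ^ 18 * U * Rz * (50 * (50 * P * P₂))) *
        (16 * M * Rz) * (2 * (51200 * Δ₀ * P) * (500 * Rz * (50 * P)))) := by positivity
  have hgood2 := good_mono hgood (q' := 1 / (Q':ℝ)) (Dl' := 1 / (T':ℝ)) (by positivity)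
    (by
      rw [eq1]
      apply one_div_le_one_div_of_le hX0
      have : ((Q * ((51200 * Δ₀ * P) * (2 ^ 13 * (50 * P)) * (2 ^ 18 * U * Rz * (50 * (50 * P * P₂))) *
        (16 * M * Rz) * (2 * (51200 * Δ₀ * P) * (500 * Rz * (50 * P)))) : ℕ) : ℝ) ≤ Q' := by
        exact_mod_cast hQ'
      refine le_trans (le_of_eq ?_) this
      push_cast
      ring)
    (by
      rw [eq2, div_le_div_iff₀ hT'0 (by positivity), one_mul]
      refine hT'2.trans (le_of_eq ?_)
      ring)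
    (one_div_le_one_div_of_le hT'0 hTQr) (m := 1) le_rfl
  rw [mul_one] at hgood2
  refine ⟨?_, ?_, Idx A G H p.Nx p.V, Ev' R R₂ p.Nx p.V₁, Fin p.Nx × H₂, inferInstance,
    inferInstance, inferInstance, Pool.Agent.N35.HL.comp O I p K, k, K', ?_, ?_, ?_, ?_⟩
  · exact Nat.one_le_iff_ne_zero.mpr (by
      have : P ≠ 0 := by omega
      have : P₂ ≠ 0 := by omega
      positivity)
  · exact Nat.one_le_iff_ne_zero.mpr (by
      have : P ≠ 0 := by omega
      have : E ≠ 0 := by omega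
      have : E₂ ≠ 0 := by omega
      have : Rz ≠ 0 := by omega
      positivity)
  · convert hgood2 using 1
    · push_cast; ring
    · rfl
  · simp only [Fintype.card_prod, Fintype.card_sum, Fintype.card_fin, Fintype.card_bool, hA, hG, hH]
    have e1 : p.Nx = 50 * P := rfl
    have e2 : p.V = Rz * (50 * P) + 2500 * Rz * P := rfl
    rw [e1, e2]; ring
  · simp only [Fintype.card_prod, Fintype.card_fin, hR, hR₂]
    have e1 : p.Nx = 50 * P := rfl
    have e2 : p.V₁ = 2500 * Rz * P := rfl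
    rw [e1, e2]; ring
  · simp only [Fintype.card_prod, Fintype.card_fin, hH₂]
    have e1 : p.Nx = 50 * P := rfl
    rw [e1]

end Pool.Agent.H116.HL
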