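import Pool.Agent.H116.HL.Lvls
import Pool.Graph.R_pool_sql_team_seeded_63374d34.N35.HL.Fin

/-!
# The final estimate

There is `c > 0` such that for every constant `C` and all large `m` there is an arrangement
certificate `KLev.Has N E P` with `N ≤ m` lines whose number `E` of changes is at least
`C * x ^ (1 + c * (log log log x) ^ 2 / (log log x) ^ 3)` for all `x ∈ [m, 8 m]`.
-/

set_option linter.unusedSectionVars false
set_option linter.unusedVariables false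
set_option maxHeartbeats 4000000

namespace Pool.Agent.H116.HL

open Finset Filter Topology Pool.Agent.N35.HL

lemma F3_one_le (j : ℕ) : 1 ≤ F3 (Jr j) := by
  unfold F3
  have hll := Jr_log j
  have h96' := log_mul_le (Jr_pos j).le hll
  have hJ := Jr_pos j
  rw [le_div_iff₀ (by positivity), one_mul]
  calc Real.log (Jr j) ^ 2 ≤ (Jr j) ^ 2 := pow_le_pow_left₀ (by linarith) (by linarith) 2
    _ ≤ (Jr j) ^ 3 := pow_le_pow_right₀ (by linarith) (by norm_num)

lemma Tj_pos {Ξ : ℕ} (hΞ : 1 ≤ Ξ) (j : ℕ) : 1 ≤ Tj Ξ j := by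
  unfold Tj
  apply Nat.one_le_iff_ne_zero.mpr
  intro h
  rw [Nat.ceil_eq_zero] at h
  have h1 := F3_one_le j
  have h2 : (1:ℝ) ≤ Ξ := by exact_mod_cast hΞ
  nlinarith

lemma Rj_le_Tj (Ξ j : ℕ) : Rj Ξ j ≤ Tj Ξ j := by
  unfold Rj Tj
  apply Nat.ceil_mono
  have hll := Jr_log j
  have h96' := log_mul_le (Jr_pos j).le hll
  have hJ := Jr_pos j
  have e : F3 (Jr j) = F2 (Jr j) * (Jr j / Real.log (Jr j)) := by
    unfold F2 F3
    field_simp
  have h1 : 1 ≤ Jr j / Real.log (Jr j) := by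
    rw [le_div_iff₀ (by linarith)]; linarith
  have h2 := mul_le_mul_of_nonneg_left h1 (F2_nonneg j)
  rw [e]
  have h3 := mul_le_mul_of_nonneg_left h2 (Nat.cast_nonneg Ξ : (0:ℝ) ≤ Ξ)
  have h4 : 0 ≤ (Ξ:ℝ) * (F2 (Jr j) * (Jr j / Real.log (Jr j))) := by
    have := F2_nonneg j
    positivity
  linarith

lemma Tj_succ {Ξ : ℕ} (hΞ : 1 ≤ Ξ) (j : ℕ) : (Tj Ξ (j + 1) : ℝ) ≤ 9 * Tj Ξ j := by
  have hJ := Jr_pos j
  have hll := Jr_log j
  have h96' := log_mul_le (Jr_pos j).le hll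
  have hΞr : (1:ℝ) ≤ Ξ := by exact_mod_cast hΞ
  have e1 : Jr (j + 1) = Jr j + 1 := by unfold Jr; push_cast; ring
  have h1 : F3 (Jr (j + 1)) ≤ 8 * F3 (Jr j) := by
    rw [e1]
    unfold F3
    have h2 : (Jr j + 1) ^ 3 ≤ 8 * (Jr j) ^ 3 := by
      calc (Jr j + 1) ^ 3 ≤ (2 * Jr j) ^ 3 := pow_le_pow_left₀ (by linarith) (by linarith) 3
        _ = 8 * (Jr j) ^ 3 := by ring
    have h3 : Real.log (Jr j) ≤ Real.log (Jr j + 1) := Real.log_le_log hJ (by linarith)
    have h4 : Real.log (Jr j) ^ 2 ≤ Real.log (Jr j + 1) ^ 2 :=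
      pow_le_pow_left₀ (by linarith) h3 2
    calc (Jr j + 1) ^ 3 / Real.log (Jr j + 1) ^ 2 ≤ 8 * (Jr j) ^ 3 / Real.log (Jr j) ^ 2 :=
          div_le_div₀ (by positivity) h2 (by positivity) h4
      _ = 8 * (Jr j ^ 3 / Real.log (Jr j) ^ 2) := by ring
  have h2 : (Tj Ξ (j + 1) : ℝ) < 4 * Ξ * F3 (Jr (j + 1)) + 1 := by
    unfold Tj
    exact Nat.ceil_lt_add_one (mul_nonneg (by positivity) (F3_nonneg _))
  have h3 : 4 * (Ξ:ℝ) * F3 (Jr j) ≤ Tj Ξ j := by
    unfold Tj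
    exact Nat.le_ceil _
  have h4 := F3_one_le j
  have h5 := mul_le_mul_of_nonneg_left h1 (by positivity : 0 ≤ 4 * (Ξ:ℝ))
  have h6 : 1 ≤ 4 * (Ξ:ℝ) * F3 (Jr j) := by nlinarith
  linarith

/-- choice of the level -/
lemma select2 {B μ Ξ : ℕ} (hμ : 1 ≤ μ) (hΞ : 1 ≤ Ξ) (l : ℕ)
    (hl : (22 + B) * (μ * 2 ^ 0) * (Tj Ξ 0) ^ 2 ≤ l) :
    ∃ j : ℕ, (22 + B) * (μ * 2 ^ j) * (Tj Ξ j) ^ 2 ≤ l ∧
      l < (22 + B) * (μ * 2 ^ (j + 1)) * (Tj Ξ (j + 1)) ^ 2 ∧ 2 ^ j ≤ l := by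
  set G : ℕ → ℕ := fun j => (22 + B) * (μ * 2 ^ j) * (Tj Ξ j) ^ 2 with hG
  have hG1 : ∀ j, 2 ^ j ≤ G j := by
    intro j
    calc 2 ^ j = 1 * (1 * 2 ^ j) * 1 := by ring
      _ ≤ G j := by
        apply Nat.mul_le_mul
        · apply Nat.mul_le_mul (by omega)
          exact Nat.mul_le_mul_right _ hμ
        · exact Nat.one_le_pow _ _ (Tj_pos hΞ j)
  have h1 : ∀ j, G j ≤ l → j ≤ l := fun j hj =>
    (Nat.lt_two_pow_self.le.trans (hG1 j)).trans hj
  have h2 : G (Nat.findGreatest (fun j => G j ≤ l) l) ≤ l :=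
    Nat.findGreatest_spec (P := fun j => G j ≤ l) (Nat.zero_le l) hl
  refine ⟨Nat.findGreatest (fun j => G j ≤ l) l, h2, ?_, (hG1 _).trans h2⟩
  by_contra hcon
  push Not at hcon
  exact Nat.findGreatest_is_greatest (P := fun j => G j ≤ l) (Nat.lt_succ_self _)
    (h1 _ hcon) hcon

lemma log_bounds2 {m l : ℕ} {x : ℝ} (h1 : 2 ^ l ≤ m) (h2 : m < 2 ^ (l + 1)) (hl : 10 ≤ l)
    (hl2 : 6 ≤ Real.log l) (hx1 : (m:ℝ) ≤ x) (hx2 : x ≤ 8 * m) :
    Real.log x * (Real.log (Real.log (Real.log x))) ^ 2 / (Real.log (Real.log x)) ^ 3 ≤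
      8 * (l * (Real.log (Real.log l)) ^ 2 / (Real.log l) ^ 3) := by
  have hl0 : (10:ℝ) ≤ l := by exact_mod_cast hl
  have e1 : (2:ℝ) ^ l ≤ m := by exact_mod_cast h1
  have e2 : (m:ℝ) ≤ 2 ^ (l + 1) := by exact_mod_cast h2.le
  have hp : (0:ℝ) < 2 ^ l := by positivity
  have hx : 0 < x := by linarith
  have l2a := Real.log_two_gt_d9
  have l2b := Real.log_two_lt_d9
  have h3 : Real.log x ≤ l := by
    have h4 : x ≤ 2 ^ (l + 4) := by
      have : (2:ℝ) ^ (l + 4) = 8 * 2 ^ (l + 1) := by ring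
      linarith
    have h5 := Real.log_le_log hx h4
    rw [Real.log_pow] at h5
    push_cast at h5
    nlinarith
  have h4 : 0.69 * (l:ℝ) ≤ Real.log x := by
    have h5 := Real.log_le_log hp (e1.trans hx1)
    rw [Real.log_pow] at h5
    nlinarith
  have h40 : 0 < Real.log x := by linarith
  have h5 : √(l:ℝ) ≤ Real.log x := by
    refine le_trans ?_ h4
    rw [Real.sqrt_le_left (by positivity)]
    nlinarith
  have h6 : Real.log l / 2 ≤ Real.log (Real.log x) := by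
    rw [← Real.log_sqrt (by positivity)]
    exact Real.log_le_log (Real.sqrt_pos.mpr (by linarith)) h5
  have h7 : Real.log (Real.log x) ≤ Real.log l := Real.log_le_log h40 h3
  have h70 : 1 ≤ Real.log (Real.log x) := by linarith
  have h8 : Real.log (Real.log (Real.log x)) ≤ Real.log (Real.log l) :=
    Real.log_le_log (by linarith) h7
  have h80 : 0 ≤ Real.log (Real.log (Real.log x)) := Real.log_nonneg h70
  calc Real.log x * (Real.log (Real.log (Real.log x))) ^ 2 / (Real.log (Real.log x)) ^ 3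
      ≤ l * (Real.log (Real.log l)) ^ 2 / (Real.log l / 2) ^ 3 := by
        apply div_le_div₀ (by positivity) _ (by positivity)
          (pow_le_pow_left₀ (by positivity) h6 3)
        exact mul_le_mul h3 (pow_le_pow_left₀ h80 h8 2) (by positivity) (by positivity)
    _ = 8 * (l * (Real.log (Real.log l)) ^ 2 / (Real.log l) ^ 3) := by
        field_simp
        ring

theorem finalE2 : ∃ c : ℝ, 0 < c ∧ ∀ C : ℝ, ∀ᶠ m : ℕ in atTop, ∃ N E P, KLev.Has N E P ∧ N ≤ m ∧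
    ∀ x : ℝ, (m:ℝ) ≤ x → x ≤ 8 * m →
      C * m * Real.exp (c * (Real.log x * (Real.log (Real.log (Real.log x))) ^ 2 /
        (Real.log (Real.log x)) ^ 3)) ≤ E := by
  obtain ⟨B, μ, Ξ, hB, hμ, hΞ, hlev⟩ := all_levels
  set c₁ : ℝ := 1 / (2880 * (22 + B) * Ξ) with hc₁
  have hΞr : (1:ℝ) ≤ Ξ := by exact_mod_cast hΞ
  have hBr : (1:ℝ) ≤ B := by exact_mod_cast hB
  have hc0 : 0 < c₁ := by positivity
  refine ⟨c₁ / 16, by positivity, ?_⟩
  intro C
  have hlog : Tendsto (fun m : ℕ => Nat.log 2 m) atTop atTop := by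
    rw [tendsto_atTop]
    intro b
    filter_upwards [eventually_ge_atTop (2 ^ b)] with m hm
    exact Nat.le_log_of_pow_le (by norm_num) hm
  have hloglog : Tendsto (fun l : ℕ => Real.log (l:ℝ)) atTop atTop :=
    Real.tendsto_log_atTop.comp tendsto_natCast_atTop_atTop
  have hev := hlog.eventually ((hloglog.eventually_ge_atTop (2 * (1 + 2 ^ 35))).and
    ((big (2 / c₁ * Real.log (10506 / 2500 * (|C| + 1)))).and (eventually_ge_atTop
      ((22 + B) * (μ * 2 ^ 0) * (Tj Ξ 0) ^ 2 + 10))))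
  filter_upwards [hev, eventually_ge_atTop 1] with m hm hm1
  obtain ⟨hLbig, hbig, hl⟩ := hm
  set l := Nat.log 2 m with hldef
  have hlm : 2 ^ l ≤ m := Nat.pow_log_le_self 2 (by omega)
  have hlm2 : m < 2 ^ (l + 1) := Nat.lt_pow_succ_log_self (by norm_num) m
  obtain ⟨j, hj1, hj2, hj3⟩ := select2 (B := B) hμ hΞ l (by omega)
  set M := μ * 2 ^ j with hM
  have hM1 : 1 ≤ M := Nat.mul_pos hμ Nat.one_le_two_pow
  have hl0 : (10:ℝ) ≤ l := by exact_mod_cast (by omega : 10 ≤ l)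
  set L := Real.log l with hL
  have hL6 : 6 ≤ L := by
    refine le_trans ?_ hLbig
    norm_num
  have hT1 := Tj_pos hΞ j
  obtain ⟨q, hq⟩ : ∃ q, Tj Ξ j = q + 1 := ⟨Tj Ξ j - 1, by omega⟩
  obtain ⟨N, E, P, h2, h3, h4⟩ := (hlev j).fill (Real.exp_nonneg _) q m (by
    refine le_trans (Nat.pow_le_pow_right (by norm_num) (le_trans ?_ hj1)) hlm
    rw [← hM, ← hq]
    have hR := Rj_le_Tj Ξ j
    set T := Tj Ξ j with hTdef
    have e1 : (B * M - 1) * T ^ 2 ≤ B * M * T ^ 2 := Nat.mul_le_mul_right _ (Nat.sub_le _ _)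
    have e2 : T * (20 + T * M + Rj Ξ j * M) ≤ T * (20 * (T * M) + T * M + T * M) := by
      apply Nat.mul_le_mul_left
      have e3 : Rj Ξ j * M ≤ T * M := Nat.mul_le_mul_right _ hR
      have e4 : 1 * 1 ≤ T * M := Nat.mul_le_mul hT1 hM1
      omega
    calc T * (20 + T * M + Rj Ξ j * M) + (B * M - 1) * T ^ 2
        ≤ T * (20 * (T * M) + T * M + T * M) + B * M * T ^ 2 := Nat.add_le_add e2 e1
      _ = (22 + B) * M * T ^ 2 := by ring)
  refine ⟨N, E, P, h2, h3, ?_⟩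
  intro x hx1 hx2
  have hx3 := log_bounds2 hlm hlm2 (by omega) hL6 hx1 hx2
  rw [← hL] at hx3
  set z := Real.log x * (Real.log (Real.log (Real.log x))) ^ 2 / (Real.log (Real.log x)) ^ 3 with hz
  set y : ℝ := l * (Real.log L) ^ 2 / L ^ 3 with hy
  have hL0 : 0 < L := by linarith
  have hLL : 1 ≤ Real.log L := by
    rw [Real.le_log_iff_exp_le hL0]
    have := Real.exp_one_lt_d9
    linarith
  have hm0 : (0:ℝ) ≤ m := Nat.cast_nonneg _
  have hybig : l / L ^ 4 ≤ y := by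
    rw [hy]
    apply div_le_div₀ (by positivity) _ (by positivity)
      (pow_le_pow_right₀ (by linarith) (by norm_num))
    have h1 : (1:ℝ) ≤ (Real.log L) ^ 2 := one_le_pow₀ hLL
    have h2 := mul_le_mul_of_nonneg_left h1 (by linarith : (0:ℝ) ≤ l)
    linarith
  -- the gain
  have h5 : c₁ * y ≤ 1 / 4 * M * Tj Ξ j := by
    have hMr : (1:ℝ) ≤ M := by exact_mod_cast hM1
    have e1 : (l:ℝ) ≤ (22 + B) * (2 * M) * (Tj Ξ (j + 1) : ℝ) ^ 2 := by
      have h6 : l ≤ (22 + B) * (2 * M) * (Tj Ξ (j + 1)) ^ 2 := by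
        have h7 : (22 + B) * (μ * 2 ^ (j + 1)) * (Tj Ξ (j + 1)) ^ 2 =
          (22 + B) * (2 * M) * (Tj Ξ (j + 1)) ^ 2 := by rw [hM, pow_succ]; ring
        rw [h7] at hj2
        exact hj2.le
      exact_mod_cast h6
    have e2 := Tj_succ hΞ j
    -- the size of the next level
    have e3 : (Tj Ξ (j + 1) : ℝ) ≤ 40 * Ξ * (L ^ 3 / (Real.log L) ^ 2) := by
      have h6 : (Tj Ξ (j + 1) : ℝ) < 4 * Ξ * F3 (Jr (j + 1)) + 1 := by
        unfold Tj
        exact Nat.ceil_lt_add_one (mul_nonneg (by positivity) (F3_nonneg _))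
      have h7 := F3_one_le (j + 1)
      have h8 : Jr (j + 1) ≤ 2 * L := by
        have h9 : (j:ℝ) * Real.log 2 ≤ L := by
          rw [← Real.log_pow, hL]
          apply Real.log_le_log (by positivity)
          exact_mod_cast hj3
        have l2a := Real.log_two_gt_d9
        have hj0 : (0:ℝ) ≤ j := Nat.cast_nonneg _
        unfold Jr
        push_cast
        nlinarith
      have h9 : F3 (Jr (j + 1)) ≤ 8 * (L ^ 3 / (Real.log L) ^ 2) := by
        refine (F3_mono (Jr_pos _) (by linarith [Jr_log (j + 1)]) h8).trans ?_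
        unfold F3
        have h10 : Real.log L ^ 2 ≤ Real.log (2 * L) ^ 2 :=
          pow_le_pow_left₀ (by linarith) (Real.log_le_log hL0 (by linarith)) 2
        calc (2 * L) ^ 3 / Real.log (2 * L) ^ 2 ≤ (2 * L) ^ 3 / Real.log L ^ 2 :=
              div_le_div_of_nonneg_left (by positivity) (by positivity) h10
          _ = 8 * (L ^ 3 / (Real.log L) ^ 2) := by ring
      have h10 : (Ξ:ℝ) * F3 (Jr (j + 1)) ≤ Ξ * (8 * (L ^ 3 / (Real.log L) ^ 2)) :=
        mul_le_mul_of_nonneg_left h9 (by linarith)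
      have h11 : 1 ≤ (Ξ:ℝ) * F3 (Jr (j + 1)) := by nlinarith
      linarith
    set T1 : ℝ := (Tj Ξ (j + 1) : ℝ) with hT1def
    set T0 : ℝ := (Tj Ξ j : ℝ) with hT0def
    have hT10 : 0 ≤ T1 := Nat.cast_nonneg _
    have hT00 : 0 ≤ T0 := Nat.cast_nonneg _
    have e4 : (l:ℝ) ≤ 720 * (22 + B) * Ξ * (M * T0) * (L ^ 3 / (Real.log L) ^ 2) := by
      calc (l:ℝ) ≤ (22 + B) * (2 * M) * T1 ^ 2 := e1
        _ = (22 + B) * (2 * M) * (T1 * T1) := by ring
        _ ≤ (22 + B) * (2 * M) * ((9 * T0) * (40 * Ξ * (L ^ 3 / (Real.log L) ^ 2))) := by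
            apply mul_le_mul_of_nonneg_left _ (by positivity)
            exact mul_le_mul e2 e3 hT10 (by positivity)
        _ = 720 * (22 + B) * Ξ * (M * T0) * (L ^ 3 / (Real.log L) ^ 2) := by ring
    rw [hc₁, hy, one_div_mul_eq_div, div_le_iff₀ (by positivity)]
    rw [div_le_iff₀ (by positivity)]
    have e5 := mul_le_mul_of_nonneg_right e4 (by positivity : 0 ≤ (Real.log L) ^ 2)
    have hLL0 : Real.log L ≠ 0 := by linarith
    have e6 : 720 * (22 + B) * Ξ * (M * T0) * (L ^ 3 / (Real.log L) ^ 2) * (Real.log L) ^ 2 =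
        1 / 4 * M * T0 * (2880 * (22 + B) * Ξ) * L ^ 3 := by
      field_simp
      ring
    rw [e6] at e5
    exact e5
  -- the ratio
  have h6 : Real.exp (c₁ * y) ≤ Real.exp (gj j * (M:ℝ)) ^ (q + 1) := by
    rw [← Real.exp_nat_mul]
    apply Real.exp_le_exp.mpr
    refine h5.trans ?_
    rw [← hq]
    have e1 := gj_ge j
    have e2 : 0 ≤ (M:ℝ) * Tj Ξ j := by positivity
    nlinarith
  have h7 : |C| + 1 ≤ 2500 / 10506 * Real.exp (c₁ / 2 * y) := by
    have e1 : (0:ℝ) < 10506 / 2500 * (|C| + 1) := by positivity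
    have e3 : Real.log (10506 / 2500 * (|C| + 1)) ≤ c₁ / 2 * y := by
      have e4 := mul_le_mul_of_nonneg_left (hbig.trans hybig) (by positivity : 0 ≤ c₁ / 2)
      have e5 : c₁ / 2 * (2 / c₁ * Real.log (10506 / 2500 * (|C| + 1))) =
        Real.log (10506 / 2500 * (|C| + 1)) := by field_simp
      rw [e5] at e4
      exact e4
    have e2 := Real.exp_le_exp.mpr e3
    rw [Real.exp_log e1] at e2
    linarith
  have h8 : c₁ / 16 * z ≤ c₁ / 2 * y := by
    have := mul_le_mul_of_nonneg_left hx3 (by positivity : 0 ≤ c₁ / 16)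
    linarith
  calc C * m * Real.exp (c₁ / 16 * z)
      ≤ (|C| + 1) * m * Real.exp (c₁ / 2 * y) := by
        apply mul_le_mul _ (Real.exp_le_exp.mpr h8) (Real.exp_nonneg _) (by positivity)
        exact mul_le_mul_of_nonneg_right (by linarith [le_abs_self C]) hm0
    _ ≤ (2500 / 10506 * Real.exp (c₁ / 2 * y)) * m * Real.exp (c₁ / 2 * y) := by
        apply mul_le_mul_of_nonneg_right _ (Real.exp_nonneg _)
        exact mul_le_mul_of_nonneg_right h7 hm0
    _ = 2500 / 10506 * (Real.exp (c₁ / 2 * y) * Real.exp (c₁ / 2 * y)) * m := by ring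
    _ = 2500 / 10506 * Real.exp (c₁ * y) * m := by
        rw [← Real.exp_add]
        congr 3
        ring
    _ ≤ 2500 / 10506 * Real.exp (gj j * (M:ℝ)) ^ (q + 1) * m := by
        apply mul_le_mul_of_nonneg_right _ hm0
        exact mul_le_mul_of_nonneg_left h6 (by norm_num)
    _ ≤ E := h4

/-- the final estimate in the form `x ^ (1 + c (log log log x) ^ 2 / (log log x) ^ 3)` -/
theorem finalP2 : ∃ c : ℝ, 0 < c ∧ ∀ C : ℝ, ∀ᶠ m : ℕ in atTop, ∃ N E P, KLev.Has N E P ∧ N ≤ m ∧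
    ∀ x : ℝ, (m:ℝ) ≤ x → x ≤ 8 * m →
      C * x ^ (1 + c * (Real.log (Real.log (Real.log x))) ^ 2 / (Real.log (Real.log x)) ^ 3) ≤
        E := by
  obtain ⟨c, hc, h⟩ := finalE2
  refine ⟨c, hc, ?_⟩
  intro C
  filter_upwards [h (8 * max C 0), eventually_ge_atTop 1] with m hm hm1
  obtain ⟨N, E, P, h1, h2, h3⟩ := hm
  refine ⟨N, E, P, h1, h2, ?_⟩
  intro x hx1 hx2
  have hm0 : (0:ℝ) < m := by exact_mod_cast hm1
  have hx : 0 < x := by linarith
  have h4 := h3 x hx1 hx2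
  set z := Real.log x * (Real.log (Real.log (Real.log x))) ^ 2 / (Real.log (Real.log x)) ^ 3 with hz
  have e : x ^ (1 + c * (Real.log (Real.log (Real.log x))) ^ 2 / (Real.log (Real.log x)) ^ 3) =
      x * Real.exp (c * z) := by
    rw [Real.rpow_add hx, Real.rpow_one, Real.rpow_def_of_pos hx, hz]
    congr 2
    ring
  rw [e]
  have h5 : 0 ≤ max C 0 := le_max_right _ _
  calc C * (x * Real.exp (c * z))
      ≤ max C 0 * (x * Real.exp (c * z)) :=
        mul_le_mul_of_nonneg_right (le_max_left _ _) (by positivity)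
    _ ≤ max C 0 * ((8 * m) * Real.exp (c * z)) := by
        apply mul_le_mul_of_nonneg_left _ h5
        exact mul_le_mul_of_nonneg_right hx2 (Real.exp_nonneg _)
    _ = 8 * max C 0 * m * Real.exp (c * z) := by ring
    _ ≤ E := h4

end Pool.Agent.H116.HL
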