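import Mathlib

/-!
# The functions `x ^ 2 / log x` and `x ^ 3 / (log x) ^ 2`
-/

set_option linter.unusedSectionVars false
set_option linter.unusedVariables false

namespace Pool.Agent.H116.HL

/-- growth of the resolution -/
noncomputable def F2 (x : ℝ) : ℝ := x ^ 2 / Real.log x

/-- growth of the number of lines -/
noncomputable def F3 (x : ℝ) : ℝ := x ^ 3 / (Real.log x) ^ 2

lemma pos_of_log {x : ℝ} (hx0 : 0 ≤ x) (hx : 24 ≤ Real.log x) : 0 < x := by
  rcases hx0.lt_or_eq with h | h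
  · exact h
  · rw [← h, Real.log_zero] at hx; norm_num at hx

lemma log_mul_le {x : ℝ} (hx0 : 0 ≤ x) (hx : 24 ≤ Real.log x) : 96 * Real.log x ≤ x := by
  have h0 := pos_of_log hx0 hx
  have h1 := Real.pow_div_factorial_le_exp (Real.log x) (by linarith) 3
  rw [Real.exp_log h0] at h1
  have h2 : ((3:ℕ).factorial : ℝ) = 6 := by norm_num [Nat.factorial]
  rw [h2] at h1
  have h3 : 576 ≤ (Real.log x) ^ 2 := by nlinarith
  have h4 : (Real.log x) ^ 3 = Real.log x * (Real.log x) ^ 2 := by ring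
  rw [h4] at h1
  have h5 : Real.log x * 576 ≤ Real.log x * (Real.log x) ^ 2 :=
    mul_le_mul_of_nonneg_left h3 (by linarith)
  linarith

lemma log_sub {x a : ℝ} (hx : 0 < x) (h0 : 0 ≤ a) (h1 : a ≤ x / 2) :
    Real.log x - 2 * (a / x) ≤ Real.log (x - a) := by
  have hu0 : 0 ≤ a / x := by positivity
  have hu1 : a / x ≤ 1 / 2 := by rw [div_le_iff₀ hx]; linarith
  have e1 : x - a = x * (1 - a / x) := by field_simp
  have h2 : 0 < 1 - a / x := by linarith
  rw [e1, Real.log_mul hx.ne' h2.ne']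
  have h3 := Real.one_sub_inv_le_log_of_pos h2
  have h4 : (1 - a / x)⁻¹ ≤ 1 + 2 * (a / x) := by
    rw [inv_le_iff_one_le_mul₀ h2]
    nlinarith
  linarith

lemma F2_diff {x a : ℝ} (hx0 : 0 ≤ x) (hx : 24 ≤ Real.log x) (h0 : 0 ≤ a) (h1 : a ≤ x / 20) :
    F2 (x - a) + a * x / Real.log x ≤ F2 x := by
  have hx1 := pos_of_log hx0 hx
  have h2 := log_sub hx1 h0 (by linarith)
  set u := a / x with hu
  have hu0 : 0 ≤ u := by positivity
  have hu1 : u ≤ 1 / 20 := by rw [hu, div_le_iff₀ hx1]; linarith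
  have ea : a = u * x := by rw [hu]; field_simp
  set l := Real.log x with hl
  set l' := Real.log (x - a) with hl'
  have h3 : (1 - u) * l ≤ l' := by nlinarith
  have hl0 : 0 < l := by linarith
  have hl'0 : 0 < l' := by nlinarith
  unfold F2
  rw [← hl', ← hl, ea]
  have e1 : (x - u * x) ^ 2 / l' + u * x * x / l = x ^ 2 * ((1 - u) ^ 2 / l' + u / l) := by
    field_simp
  have e2 : x ^ 2 / l = x ^ 2 * (1 / l) := by ring
  rw [e1, e2]
  apply mul_le_mul_of_nonneg_left _ (by positivity)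
  have h4 : (1 - u) ^ 2 / l' ≤ (1 - u) / l := by
    rw [div_le_div_iff₀ hl'0 hl0]
    have : 0 ≤ 1 - u := by linarith
    nlinarith
  have e3 : 1 / l = (1 - u) / l + u / l := by field_simp; ring
  rw [e3]
  linarith

lemma F3_diff {x a : ℝ} (hx0 : 0 ≤ x) (hx : 24 ≤ Real.log x) (h0 : 0 ≤ a) (h1 : a ≤ x / 20) :
    F3 (x - a) + 2 * (a * x ^ 2 / (Real.log x) ^ 2) ≤ F3 x := by
  have hx1 := pos_of_log hx0 hx
  have h2 := log_sub hx1 h0 (by linarith)
  set u := a / x with hu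
  have hu0 : 0 ≤ u := by positivity
  have hu1 : u ≤ 1 / 20 := by rw [hu, div_le_iff₀ hx1]; linarith
  have ea : a = u * x := by rw [hu]; field_simp
  set l := Real.log x with hl
  set l' := Real.log (x - a) with hl'
  have hl0 : 0 < l := by linarith
  have h3 : (1 - u / 12) * l ≤ l' := by nlinarith
  have h30 : 0 < (1 - u / 12) * l := mul_pos (by linarith) hl0
  have hl'0 : 0 < l' := by linarith
  have h5 : (1 - u / 6) * l ^ 2 ≤ l' ^ 2 := by
    have h6 : ((1 - u / 12) * l) ^ 2 ≤ l' ^ 2 := pow_le_pow_left₀ h30.le h3 2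
    have h7 : (1 - u / 6) * l ^ 2 ≤ ((1 - u / 12) * l) ^ 2 := by
      have : ((1 - u / 12) * l) ^ 2 = (1 - u / 6) * l ^ 2 + (u / 12) ^ 2 * l ^ 2 := by ring
      rw [this]
      have : 0 ≤ (u / 12) ^ 2 * l ^ 2 := by positivity
      linarith
    linarith
  unfold F3
  rw [← hl', ← hl, ea]
  have e1 : (x - u * x) ^ 3 / l' ^ 2 + 2 * (u * x * x ^ 2 / l ^ 2) =
      x ^ 3 * ((1 - u) ^ 3 / l' ^ 2 + 2 * u / l ^ 2) := by
    field_simp
  have e2 : x ^ 3 / l ^ 2 = x ^ 3 * (1 / l ^ 2) := by ring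
  rw [e1, e2]
  apply mul_le_mul_of_nonneg_left _ (by positivity)
  have h4 : (1 - u) ^ 3 / l' ^ 2 ≤ (1 - 2 * u) / l ^ 2 := by
    rw [div_le_div_iff₀ (by positivity) (by positivity)]
    have h8 : (1 - u) ^ 3 ≤ (1 - 2 * u) * (1 - u / 6) := by nlinarith [mul_nonneg hu0 hu0]
    have h9 : 0 ≤ 1 - 2 * u := by linarith
    calc (1 - u) ^ 3 * l ^ 2 ≤ (1 - 2 * u) * (1 - u / 6) * l ^ 2 :=
          mul_le_mul_of_nonneg_right h8 (by positivity)
      _ = (1 - 2 * u) * ((1 - u / 6) * l ^ 2) := by ring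
      _ ≤ (1 - 2 * u) * l' ^ 2 := mul_le_mul_of_nonneg_left h5 h9
  have e3 : 1 / l ^ 2 = (1 - 2 * u) / l ^ 2 + 2 * u / l ^ 2 := by field_simp; ring
  rw [e3]
  linarith

lemma log_ratio {x y : ℝ} (hx0 : 0 < x) (hx : 1 ≤ Real.log x) (hxy : x ≤ y) :
    Real.log y ≤ y / x * Real.log x := by
  have hy0 : 0 < y := lt_of_lt_of_le hx0 hxy
  have hv : 1 ≤ y / x := by rw [le_div_iff₀ hx0]; linarith
  have e : Real.log y = Real.log x + Real.log (y / x) := by
    rw [Real.log_div hy0.ne' hx0.ne']; ring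
  have h1 := Real.log_le_sub_one_of_pos (show 0 < y / x by positivity)
  rw [e]
  nlinarith

lemma F1_mono {x y : ℝ} (hx0 : 0 < x) (hx : 1 ≤ Real.log x) (hxy : x ≤ y) :
    x / Real.log x ≤ y / Real.log y := by
  have h1 := log_ratio hx0 hx hxy
  have hy : 1 ≤ Real.log y := hx.trans (Real.log_le_log hx0 hxy)
  rw [div_le_div_iff₀ (by linarith) (by linarith)]
  have h2 := mul_le_mul_of_nonneg_left h1 hx0.le
  have e : x * (y / x * Real.log x) = y * Real.log x := by field_simp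
  rw [e] at h2
  exact h2

lemma F2_mono {x y : ℝ} (hx0 : 0 < x) (hx : 1 ≤ Real.log x) (hxy : x ≤ y) : F2 x ≤ F2 y := by
  have h1 := F1_mono hx0 hx hxy
  have hy : 1 ≤ Real.log y := hx.trans (Real.log_le_log hx0 hxy)
  have e1 : F2 x = x * (x / Real.log x) := by unfold F2; ring
  have e2 : F2 y = y * (y / Real.log y) := by unfold F2; ring
  rw [e1, e2]
  exact mul_le_mul hxy h1 (by positivity) (by linarith)

lemma F3_mono {x y : ℝ} (hx0 : 0 < x) (hx : 1 ≤ Real.log x) (hxy : x ≤ y) : F3 x ≤ F3 y := by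
  have h1 := F1_mono hx0 hx hxy
  have hy : 1 ≤ Real.log y := hx.trans (Real.log_le_log hx0 hxy)
  have hy0 : 0 < y := lt_of_lt_of_le hx0 hxy
  have h0 : 0 ≤ x / Real.log x := by positivity
  have e1 : F3 x = x * (x / Real.log x) ^ 2 := by
    unfold F3
    have : Real.log x ≠ 0 := by linarith
    field_simp
  have e2 : F3 y = y * (y / Real.log y) ^ 2 := by
    unfold F3
    have : Real.log y ≠ 0 := by linarith
    field_simp
  rw [e1, e2]
  exact mul_le_mul hxy (pow_le_pow_left₀ h0 h1 2) (by positivity) hy0.le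

/-- the number of stages -/
lemma exists_a {J : ℝ} (hJ0 : 0 ≤ J) (hJ : 24 ≤ Real.log J) :
    ∃ a : ℕ, 64 * (J / Real.log J) ≤ 2 ^ a ∧ (2:ℝ) ^ a ≤ 128 * (J / Real.log J) ∧
      129 / 100 * Real.log J ≤ a ∧ (a:ℝ) + 1 ≤ 2 * Real.log J ∧ (a:ℝ) ≤ J / 20 := by
  have hJ1 := pos_of_log hJ0 hJ
  have h96 := log_mul_le hJ0 hJ
  set l := Real.log J with hl
  have hl0 : 0 < l := by linarith
  have hx1 : 1 ≤ 64 * (J / l) := by
    have : 1 ≤ J / l := by rw [le_div_iff₀ hl0]; linarith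
    linarith
  obtain ⟨n, hn1, hn2⟩ := exists_nat_pow_near hx1 (by norm_num : (1:ℝ) < 2)
  have l2a := Real.log_two_gt_d9
  have l2b := Real.log_two_lt_d9
  have hJl : 0 < J / l := by positivity
  have hup : (2:ℝ) ^ (n + 1) ≤ 128 * (J / l) := by
    rw [pow_succ]; linarith
  -- logarithms
  have e1 : Real.log (64 * (J / l)) = 6 * Real.log 2 + (l - Real.log l) := by
    rw [Real.log_mul (by norm_num) hJl.ne', Real.log_div hJ1.ne' hl0.ne', ← hl]
    have : Real.log 64 = 6 * Real.log 2 := by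
      rw [show (64:ℝ) = 2 ^ 6 by norm_num, Real.log_pow]; norm_num
    rw [this]
  have e2 : Real.log (128 * (J / l)) = 7 * Real.log 2 + (l - Real.log l) := by
    rw [Real.log_mul (by norm_num) hJl.ne', Real.log_div hJ1.ne' hl0.ne', ← hl]
    have : Real.log 128 = 7 * Real.log 2 := by
      rw [show (128:ℝ) = 2 ^ 7 by norm_num, Real.log_pow]; norm_num
    rw [this]
  have h3 := Real.log_le_log (by linarith) hn2.le
  have h4 := Real.log_le_log (by positivity) hup
  rw [e1, Real.log_pow] at h3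
  rw [e2, Real.log_pow] at h4
  have hll : Real.log l ≤ l / 10 + 3 / 2 := by
    have h5 := Real.log_le_sub_one_of_pos (show 0 < l / 10 by positivity)
    rw [Real.log_div hl0.ne' (by norm_num)] at h5
    have h6 : Real.log 10 ≤ 5 / 2 := by
      have h7 : Real.log 10 ≤ Real.log (2 ^ (7/2 : ℝ)) := by
        apply Real.log_le_log (by norm_num)
        have h8 : ((2:ℝ) ^ (7/2 : ℝ)) ^ (2:ℕ) = 128 := by
          rw [← Real.rpow_natCast, ← Real.rpow_mul (by norm_num)]
          norm_num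
        have h9 : (0:ℝ) ≤ (2:ℝ) ^ (7/2 : ℝ) := by positivity
        nlinarith
      rw [Real.log_rpow (by norm_num)] at h7
      linarith
    linarith
  have hll0 : 0 ≤ Real.log l := Real.log_nonneg (by linarith)
  have h7 : ((n + 1 : ℕ) : ℝ) + 1 ≤ 2 * l := by
    have : ((n + 1 : ℕ) : ℝ) * 0.6931 ≤ ((n + 1 : ℕ) : ℝ) * Real.log 2 :=
      mul_le_mul_of_nonneg_left (by linarith) (by positivity)
    linarith
  refine ⟨n + 1, hn2.le, hup, ?_, h7, ?_⟩
  · have : ((n + 1 : ℕ) : ℝ) * Real.log 2 ≤ ((n + 1 : ℕ) : ℝ) * 0.6932 :=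
      mul_le_mul_of_nonneg_left (by linarith) (by positivity)
    linarith
  · linarith

end Pool.Agent.H116.HL
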