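import Mathlib

/-!
# The inequalities of one level
-/

set_option linter.unusedSectionVars false
set_option linter.unusedVariables false

namespace Pool.Agent.H116.HL

section

variable {J Y Ξ B ρ ω K m H A : ℝ}

/-- bound for the resolution -/
lemma S_real (hJ : 1 ≤ J) (hY : 1 ≤ Y) (hK1 : 1 ≤ K) (hm : 1 ≤ m) (hH : H = m * K * K)
    (hKY : 64 * Y ≤ K) (hA : A ≤ 256 * J) (hA0 : 0 ≤ A) (hΞ0 : 0 ≤ Ξ) (hB : 1 ≤ B)
    (hρ : ρ ≤ Ξ * (J * Y) + 1) (hω : ω ≤ 4 * (Ξ * (J * Y ^ 2)) + 1) :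
    1 ≤ H ∧ ρ * (m * K) ≤ (Ξ * J / 64 + 1) * H ∧
    75 + ρ * H + ω * m + A * (33 + 2 * (B * H)) + 5 * (ρ * (m * K)) + 5 * (B * H) ≤
      (75 + ρ + (Ξ * J / 1024 + 1) + 256 * J * (33 + 2 * B) + 5 * (Ξ * J / 64 + 1) + 5 * B) * H := by
  have hm0 : 0 < m := by linarith
  have hK0 : 0 < K := by linarith
  have hmK : 1 ≤ m * K := by nlinarith
  have hH1 : 1 ≤ H := by rw [hH]; nlinarith
  have hmH : m ≤ H := by
    rw [hH]
    have : 1 ≤ K * K := by nlinarith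
    nlinarith
  have hmKH : m * K ≤ H := by rw [hH]; nlinarith
  have hΞJ : 0 ≤ Ξ * J := by positivity
  -- the margins of the smallest block
  have h1 : ω * m ≤ (Ξ * J / 1024 + 1) * H := by
    have h2 : (64 * Y) ^ 2 ≤ K ^ 2 := pow_le_pow_left₀ (by linarith) hKY 2
    have h3 : ω ≤ Ξ * J / 1024 * K ^ 2 + 1 := by
      have h4 : Ξ * J / 1024 * (64 * Y) ^ 2 ≤ Ξ * J / 1024 * K ^ 2 :=
        mul_le_mul_of_nonneg_left h2 (by positivity)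
      have e : Ξ * J / 1024 * (64 * Y) ^ 2 = 4 * (Ξ * (J * Y ^ 2)) := by ring
      linarith
    have h5 := mul_le_mul_of_nonneg_right h3 hm0.le
    have e : (Ξ * J / 1024 * K ^ 2 + 1) * m = Ξ * J / 1024 * H + m := by rw [hH]; ring
    rw [e] at h5
    have e2 : (Ξ * J / 1024 + 1) * H = Ξ * J / 1024 * H + H := by ring
    linarith
  have h2 : ρ * (m * K) ≤ (Ξ * J / 64 + 1) * H := by
    have h3 : ρ ≤ Ξ * J / 64 * K + 1 := by
      have h4 : Ξ * J / 64 * (64 * Y) ≤ Ξ * J / 64 * K :=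
        mul_le_mul_of_nonneg_left hKY (by positivity)
      have e : Ξ * J / 64 * (64 * Y) = Ξ * (J * Y) := by ring
      linarith
    have h5 := mul_le_mul_of_nonneg_right h3 (by positivity : 0 ≤ m * K)
    have e : (Ξ * J / 64 * K + 1) * (m * K) = Ξ * J / 64 * H + m * K := by rw [hH]; ring
    rw [e] at h5
    have e2 : (Ξ * J / 64 + 1) * H = Ξ * J / 64 * H + H := by ring
    linarith
  refine ⟨hH1, h2, ?_⟩
  have h3 : A * (33 + 2 * (B * H)) ≤ 256 * J * (33 + 2 * B) * H := by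
    have h4 : 33 + 2 * (B * H) ≤ (33 + 2 * B) * H := by nlinarith
    calc A * (33 + 2 * (B * H)) ≤ A * ((33 + 2 * B) * H) := mul_le_mul_of_nonneg_left h4 hA0
      _ ≤ 256 * J * ((33 + 2 * B) * H) := by
          apply mul_le_mul_of_nonneg_right hA
          positivity
      _ = _ := by ring
  nlinarith

lemma R_real (hJ : 1 ≤ J) (hY : 1 ≤ Y) (hK1 : 1 ≤ K) (hm : 1 ≤ m) (hH : H = m * K * K)
    (hKY : 64 * Y ≤ K) (hA : A ≤ 256 * J) (hA0 : 0 ≤ A) (hB : 1 ≤ B)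
    (hΞ : 1000 * (140 + 7 * B) ≤ Ξ)
    (hρ : ρ ≤ Ξ * (J * Y) - 129 / 100 * (Ξ * J) + 1) (hω : ω ≤ 4 * (Ξ * (J * Y ^ 2)) + 1) :
    1 + 2 * A + (75 + ρ * H + ω * m + A * (33 + 2 * (B * H)) + 5 * (ρ * (m * K)) +
      5 * (B * H)) ≤ Ξ * (J * Y) * H := by
  have hΞ0 : 0 ≤ Ξ := by linarith
  have hΞJ : 0 ≤ Ξ * J := by positivity
  have hρ2 : ρ ≤ Ξ * (J * Y) + 1 := by linarith
  obtain ⟨hH1, -, h1⟩ := S_real (ρ := ρ) (ω := ω) hJ hY hK1 hm hH hKY hA hA0 hΞ0 hB hρ2 hω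
  have h2 : 1 + 2 * A ≤ (1 + 512 * J) * H := by
    have : 1 * (1 + 512 * J) ≤ H * (1 + 512 * J) := mul_le_mul_of_nonneg_right hH1 (by positivity)
    linarith
  have h3 : (1 + 512 * J) + (75 + ρ + (Ξ * J / 1024 + 1) + 256 * J * (33 + 2 * B) +
      5 * (Ξ * J / 64 + 1) + 5 * B) ≤ Ξ * (J * Y) := by
    have h4 : 1000 * (140 + 7 * B) * J ≤ Ξ * J := mul_le_mul_of_nonneg_right hΞ (by linarith)
    nlinarith
  have h5 := mul_le_mul_of_nonneg_right h3 (by linarith : 0 ≤ H)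
  rw [add_mul] at h5
  linarith

lemma W_real (hJ : 1 ≤ J) (hY : 1 ≤ Y) (hK1 : 1 ≤ K) (hm : 1 ≤ m) (hH : H = m * K * K)
    (hKY : 64 * Y ≤ K) (hA : A ≤ 256 * J) (hA0 : 0 ≤ A) (hB : 1 ≤ B)
    (hΞ : 1000 * (140 + 7 * B) ≤ Ξ) (hρ : ρ ≤ Ξ * (J * Y) + 1)
    (hω : ω ≤ 4 * (Ξ * (J * Y ^ 2)) - 1032 / 100 * (Ξ * (J * Y)) + 1) :
    8 + (75 + ρ * H + ω * m + A * (33 + 2 * (B * H)) + 5 * (ρ * (m * K)) + 5 * (B * H)) +
      4 * A + (ω + 5 * ρ + B) * H + A * (99 + 5 * (B * H)) + 2 * (ρ * (m * K)) ≤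
      4 * (Ξ * (J * Y ^ 2)) * H := by
  have hΞ0 : 0 ≤ Ξ := by linarith
  have hΞJ : 0 ≤ Ξ * J := by positivity
  have hΞJY : 0 ≤ Ξ * (J * Y) := by positivity
  have hω2 : ω ≤ 4 * (Ξ * (J * Y ^ 2)) + 1 := by linarith
  obtain ⟨hH1, h0, h1⟩ := S_real (ρ := ρ) (ω := ω) hJ hY hK1 hm hH hKY hA hA0 hΞ0 hB hρ hω2
  have h2 : 8 + 4 * A + A * (99 + 5 * (B * H)) ≤ (8 + 256 * J * (103 + 5 * B)) * H := by
    have h4 : 103 + 5 * (B * H) ≤ (103 + 5 * B) * H := by nlinarith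
    calc 8 + 4 * A + A * (99 + 5 * (B * H)) = 8 + A * (103 + 5 * (B * H)) := by ring
      _ ≤ 8 + A * ((103 + 5 * B) * H) := by
          have := mul_le_mul_of_nonneg_left h4 hA0
          linarith
      _ ≤ 8 + 256 * J * ((103 + 5 * B) * H) := by
          have : A * ((103 + 5 * B) * H) ≤ 256 * J * ((103 + 5 * B) * H) := by
            apply mul_le_mul_of_nonneg_right hA
            positivity
          linarith
      _ ≤ _ := by nlinarith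
  have h3 : (8 + 256 * J * (103 + 5 * B)) + (75 + ρ + (Ξ * J / 1024 + 1) +
      256 * J * (33 + 2 * B) + 5 * (Ξ * J / 64 + 1) + 5 * B) + (ω + 5 * ρ + B) +
      2 * (Ξ * J / 64 + 1) ≤ 4 * (Ξ * (J * Y ^ 2)) := by
    have h4 : 1000 * (140 + 7 * B) * J ≤ Ξ * J := mul_le_mul_of_nonneg_right hΞ (by linarith)
    have h5 : Ξ * J ≤ Ξ * (J * Y) := by
      apply mul_le_mul_of_nonneg_left _ hΞ0
      nlinarith
    nlinarith
  have h5 := mul_le_mul_of_nonneg_right h3 (by linarith : 0 ≤ H)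
  rw [add_mul, add_mul, add_mul] at h5
  linarith

lemma T_real (hJ : 1 ≤ J) (hY : 1 ≤ Y) (hH1 : 1 ≤ H) (hA : A ≤ 256 * J) (hA0 : 0 ≤ A)
    (hB : 1 ≤ B) (hΞ : 1000 * (140 + 7 * B) ≤ Ξ) (hρ : ρ ≤ Ξ * (J * Y) + 1)
    (hω : ω ≤ 4 * (Ξ * (J * Y ^ 2)) - 1032 / 100 * (Ξ * (J * Y)) + 1) :
    1 + (ω + ρ) * H + A * (18 + 2 * (B * H)) ≤ 4 * (Ξ * (J * Y ^ 2)) * H := by
  have hΞ0 : 0 ≤ Ξ := by linarith
  have hΞJY : 0 ≤ Ξ * (J * Y) := by positivity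
  have h2 : 1 + A * (18 + 2 * (B * H)) ≤ (1 + 256 * J * (18 + 2 * B)) * H := by
    have h4 : 18 + 2 * (B * H) ≤ (18 + 2 * B) * H := by nlinarith
    calc 1 + A * (18 + 2 * (B * H)) ≤ 1 + A * ((18 + 2 * B) * H) := by
          have := mul_le_mul_of_nonneg_left h4 hA0
          linarith
      _ ≤ 1 + 256 * J * ((18 + 2 * B) * H) := by
          have : A * ((18 + 2 * B) * H) ≤ 256 * J * ((18 + 2 * B) * H) := by
            apply mul_le_mul_of_nonneg_right hA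
            positivity
          linarith
      _ ≤ _ := by nlinarith
  have h3 : (1 + 256 * J * (18 + 2 * B)) + (ω + ρ) ≤ 4 * (Ξ * (J * Y ^ 2)) := by
    have h4 : 1000 * (140 + 7 * B) * J ≤ Ξ * J := mul_le_mul_of_nonneg_right hΞ (by linarith)
    have h5 : Ξ * J ≤ Ξ * (J * Y) := by
      apply mul_le_mul_of_nonneg_left _ hΞ0
      nlinarith
    nlinarith
  have h5 := mul_le_mul_of_nonneg_right h3 (by linarith : 0 ≤ H)
  rw [add_mul] at h5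
  linarith

end

end Pool.Agent.H116.HL
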