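import Pool.Agent.H116.HL.Chain

/-!
# One level: inner blocks of geometrically decreasing sizes
-/

set_option linter.unusedSectionVars false
set_option linter.unusedVariables false
set_option maxHeartbeats 4000000

namespace Pool.Agent.H116.HL

open Finset Pool.Agent.N35.HL

/-- from an outer block to an inner block -/
theorem Ch.toLv {S Δ t τ q b l : ℕ} {β : ℝ} (h : Ch S Δ t τ q b l β) :
    Lv t (1 + 2 * l + S) (6 + S + 4 * l + q) (6 + b) (2500 / 10506 * β / ((S:ℝ) + 4)) := by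
  obtain ⟨N, E, P, hO, hτS, hτq, hN, hPb, hr⟩ := h
  obtain ⟨Δ', E', h8, h9⟩ := hO.up Nat.one_le_two_pow (Nat.one_le_pow _ _ (by norm_num))
  have hTC : 2 ^ τ * 2 ^ (S - τ) = 2 ^ S := by
    rw [← pow_add]; congr 1; omega
  rw [hTC] at h8 h9
  have h3i : 3 ^ l ≤ 2 ^ (2 * l) := by
    rw [pow_mul]; exact Nat.pow_le_pow_left (by norm_num) l
  refine ⟨N, E', P, _, Δ', _, _, h8, hN, ?_, ?_, ?_, ?_⟩
  · calc 2 * 3 ^ l * 2 ^ S ≤ 2 * 2 ^ (2 * l) * 2 ^ S :=
          Nat.mul_le_mul_right _ (Nat.mul_le_mul_left _ h3i)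
      _ = 2 ^ (1 + 2 * l + S) := by rw [← pow_succ', ← pow_add]; congr 1; ring
  · calc 4 * 2 ^ S * (3 ^ l) ^ 2 * (12 * 2 ^ q)
        ≤ 2 ^ 2 * 2 ^ S * (2 ^ (2 * l)) ^ 2 * (2 ^ 4 * 2 ^ q) := by
          apply Nat.mul_le_mul
          · exact Nat.mul_le_mul (by norm_num) (Nat.pow_le_pow_left h3i 2)
          · exact Nat.mul_le_mul (by norm_num) le_rfl
      _ = 2 ^ (6 + S + 4 * l + q) := by
          rw [← pow_mul, ← pow_add, ← pow_add, ← pow_add, ← pow_add]
          congr 1; ring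
  · calc 50 * P ≤ 2 ^ 6 * 2 ^ b := Nat.mul_le_mul (by norm_num) hPb
      _ = 2 ^ (6 + b) := (pow_add _ _ _).symm
  · have h10 : Nat.log 2 (12 * 2 ^ S) + 1 ≤ S + 4 := by
      have h11 : 12 * 2 ^ S < 2 ^ (S + 4) := by
        rw [pow_add]
        have : 0 < 2 ^ S := by positivity
        omega
      have := Nat.log_lt_of_lt_pow (by positivity) h11
      omega
    have h11 : E ≤ E' * (S + 4) := h9.trans (Nat.mul_le_mul_left _ h10)
    have h12 : (E:ℝ) ≤ E' * (S + 4) := by exact_mod_cast h11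
    have hpos : (0:ℝ) < (S:ℝ) + 4 := by positivity
    rw [div_mul_eq_mul_div, div_mul_eq_mul_div, div_le_iff₀ hpos]
    linarith

/-- the state after `i` stages -/
def Stage (S θ ρ ω B K H : ℕ) (γ : ℝ) (i U V y : ℕ) : Prop :=
  ∃ Δ t τ q b, Ch S Δ t τ q b (K * i) (Real.exp (γ * U)) ∧ 1 ≤ Δ ∧ Δ ≤ 2 ^ (ρ * y) ∧
    t ≤ 1 + (θ + ρ) * U + K * i * (18 + 2 * (B * H)) ∧
    τ ≤ 1 + ρ * U + K * i * (33 + 2 * (B * H)) + ρ * V ∧
    q ≤ 2 + (ω + 5 * ρ + B) * U + K * i * (99 + 5 * (B * H)) + 2 * (ρ * V) ∧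
    b + K * i ≤ B * U

/-- one stage: `K` copies of the same inner block of multiplicity `x` -/
theorem Stage.next {S θ ρ ω B K H : ℕ} {γ : ℝ} {i U V y x : ℕ}
    (h : Stage S θ ρ ω B K H γ i U V y)
    (hB : 1 ≤ B) (hx1 : 1 ≤ x) (hK1 : 1 ≤ K) (hU : U + K * x ≤ H)
    (hL : Lv (θ * x) (ρ * x) (ω * x) (B * x - 1) (Real.exp (γ * x)))
    (hS : 75 + ρ * (U + K * x) + ω * x + K * (i + 1) * (33 + 2 * (B * H))
      + ρ * (V + 2 * y) + 4 * (ρ * x) + 5 * (B * H) ≤ S) :
    Stage S θ ρ ω B K H γ (i + 1) (U + K * x) (V + y) x := by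
  obtain ⟨Δ, t, τ, q, b, hC, hΔ1, hΔ, ht, hτ, hq, hb⟩ := h
  obtain ⟨n, hn⟩ : ∃ n, K = n + 1 := ⟨K - 1, by omega⟩
  set c := B * H with hc
  have hBx : 1 ≤ B * x := Nat.mul_pos hB hx1
  have hcU : B * (U + K * x) ≤ c := Nat.mul_le_mul_left _ hU
  have hb2 : b + (n + 1) * (B * x - 1) + K * (i + 1) ≤ B * (U + K * x) := by
    rw [← hn]
    obtain ⟨y, hy⟩ : ∃ y, B * x = y + 1 := ⟨B * x - 1, by omega⟩
    have e1 : B * (U + K * x) = B * U + K * (B * x) := by ring
    rw [e1, hy, Nat.add_sub_cancel]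
    have e2 : K * (y + 1) = K * y + K := by ring
    have e3 : K * (i + 1) = K * i + K := by ring
    omega
  have hBxc : B * x ≤ c := by
    refine le_trans ?_ hcU
    apply Nat.mul_le_mul_left
    have : 1 * x ≤ K * x := Nat.mul_le_mul_right _ hK1
    omega
  -- expansions
  have x1 : K * (i + 1) * (33 + 2 * c) = K * i * (33 + 2 * c) + K * (33 + 2 * c) := by ring
  have x2 : K * (i + 1) * (18 + 2 * c) = K * i * (18 + 2 * c) + K * (18 + 2 * c) := by ring
  have x3 : K * (i + 1) * (99 + 5 * c) = K * i * (99 + 5 * c) + K * (99 + 5 * c) := by ring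
  have y1 : K * (33 + ρ * x + 2 * c) = K * (ρ * x) + K * (33 + 2 * c) := by ring
  have y2 : K * (18 + θ * x + ρ * x + 2 * c) = K * (θ * x) + K * (ρ * x) + K * (18 + 2 * c) := by
    ring
  have y3 : K * (99 + ω * x + 5 * (ρ * x) + 5 * c + (B * x - 1)) ≤
      K * (ω * x) + 5 * (K * (ρ * x)) + K * (B * x) + K * (99 + 5 * c) := by
    have : K * (99 + ω * x + 5 * (ρ * x) + 5 * c + (B * x - 1)) ≤
      K * (99 + ω * x + 5 * (ρ * x) + 5 * c + B * x) := Nat.mul_le_mul_left _ (by omega)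
    refine this.trans (le_of_eq ?_)
    ring
  have z1 : ρ * (U + K * x) = ρ * U + K * (ρ * x) := by ring
  have z2 : (θ + ρ) * (U + K * x) = (θ + ρ) * U + K * (θ * x) + K * (ρ * x) := by ring
  have z3 : (ω + 5 * ρ + B) * (U + K * x) =
      (ω + 5 * ρ + B) * U + K * (ω * x) + 5 * (K * (ρ * x)) + K * (B * x) := by ring
  have w1 : ρ * (V + y) = ρ * V + ρ * y := by ring
  have w2 : ρ * (V + 2 * y) = ρ * V + 2 * (ρ * y) := by ring
  rw [z1, x1, w2] at hS
  obtain ⟨Δ', hΔ'1, hΔ', hC'⟩ := hC.rep (Real.exp_nonneg _) hΔ1 hL (Real.exp_nonneg _)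
    (δ := ρ * y) (c := c) hΔ n (by omega) (by
      rw [← hn, y1]
      omega)
  have e1 : K * i + (n + 1) = K * (i + 1) := by rw [← hn]; ring
  have e2 : Real.exp (γ * U) * Real.exp (γ * x) ^ (n + 1) =
      Real.exp (γ * ((U + K * x : ℕ) : ℝ)) := by
    rw [← Real.exp_nat_mul, ← Real.exp_add, ← hn]
    congr 1
    push_cast; ring
  rw [e1, e2] at hC'
  refine ⟨Δ', _, _, _, _, hC', hΔ'1, hΔ', ?_, ?_, ?_, ?_⟩
  · rw [← hn, y2, z2, x2]
    omega
  · rw [← hn, y1, z1, x1, w1]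
    omega
  · rw [← hn, z3, x3, w1]
    omega
  · exact hb2

/-- one level -/
theorem level {θ ρ ω B m a : ℕ} {γ : ℝ} (hm : 1 ≤ m) (ha : 2 ≤ a) (hB : 1 ≤ B)
    (hω : ω ≤ ρ * 2 ^ a)
    (hblk : ∀ e < a, Lv (θ * (m * 2 ^ e)) (ρ * (m * 2 ^ e)) (ω * (m * 2 ^ e))
      (B * (m * 2 ^ e) - 1) (Real.exp (γ * ((m * 2 ^ e : ℕ) : ℝ)))) {K H S : ℕ}
    (hK : K = 2 ^ a) (hH : H = m * K * K)
    (hS : S = 75 + ρ * H + ω * m + K * (a + 1) * (33 + 2 * (B * H)) + 5 * (ρ * (m * K)) +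
      5 * (B * H)) :
    Lv (1 + (θ + ρ) * H + K * (a + 1) * (18 + 2 * (B * H)))
      (1 + 2 * (K * (a + 1)) + S)
      (8 + S + 4 * (K * (a + 1)) + (ω + 5 * ρ + B) * H + K * (a + 1) * (99 + 5 * (B * H)) +
        2 * (ρ * (m * K)))
      (B * H - 1) (2500 / 10506 * Real.exp (γ * H) / ((S:ℝ) + 4)) := by
  have hK1 : 1 ≤ K := by rw [hK]; exact Nat.one_le_two_pow
  have hDH : ∀ x, 2 * x ≤ m * K → K * (2 * x) ≤ H := by
    intro x hx
    calc K * (2 * x) ≤ K * (m * K) := Nat.mul_le_mul_left _ hx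
      _ = H := by rw [hH]; ring
  -- the stages
  have key : ∀ i, i ≤ a → ∀ U, U + K * (m * 2 ^ (a - i)) = H →
      ∃ V y, Stage S θ ρ ω B K H γ i U V y ∧ V + y + m * 2 ^ (a - i) ≤ m * K ∧
        y ≤ m * 2 ^ (a - i) := by
    intro i
    induction i with
    | zero =>
      intro _ U hU
      have hU0 : U = 0 := by
        simp only [Nat.sub_zero] at hU
        rw [← hK] at hU
        have : K * (m * K) = H := by rw [hH]; ring
        omega
      subst hU0
      have hS1 : 1 ≤ S := by omega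
      refine ⟨0, 0, ⟨1, 1, 1, 2, 0, ?_, le_rfl, Nat.one_le_two_pow, by omega, by omega, by omega,
        by omega⟩, ?_, by omega⟩
      · have := Ch.start hS1
        simpa using this
      · rw [Nat.sub_zero, ← hK]
        omega
    | succ i ih =>
      intro hi U hU
      set x := m * 2 ^ (a - (i + 1)) with hx
      have hx1 : 1 ≤ x := Nat.mul_pos hm Nat.one_le_two_pow
      have e1 : a - i = (a - (i + 1)) + 1 := by omega
      have e2 : m * 2 ^ (a - i) = 2 * x := by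
        rw [hx, e1, pow_succ]; ring
      have hxle : 2 * x ≤ m * K := by
        rw [← e2, hK]
        exact Nat.mul_le_mul_left _ (Nat.pow_le_pow_right (by norm_num) (by omega))
      have e3 := hDH x hxle
      have e4 : K * (2 * x) = 2 * (K * x) := by ring
      obtain ⟨V, y, h1, hVy, hy⟩ := ih (by omega) (U - K * x) (by
        rw [e2, e4]
        omega)
      rw [e2] at hVy hy
      have hUx : K * x ≤ U := by omega
      have e5 : U - K * x + K * x = U := Nat.sub_add_cancel hUx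
      have h2 := h1.next hB hx1 hK1 (by rw [e5]; omega)
        (by
          have := hblk (a - (i + 1)) (by omega)
          rw [← hx] at this
          exact this) (by
          rw [e5, hS]
          have f1 : ω * x ≤ ρ * (K * x) := by
            calc ω * x ≤ (ρ * 2 ^ a) * x := Nat.mul_le_mul_right _ hω
              _ = _ := by rw [hK]; ring
          have f2 : ρ * U + ρ * (K * x) = ρ * H := by
            rw [← Nat.mul_add, hU]
          have f3 : K * (i + 1) * (33 + 2 * (B * H)) ≤ K * (a + 1) * (33 + 2 * (B * H)) := by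
            apply Nat.mul_le_mul_right
            exact Nat.mul_le_mul_left _ (by omega)
          have f4 : ρ * (V + 2 * y) ≤ ρ * (m * K) := Nat.mul_le_mul_left _ (by omega)
          have f5 : 2 * (ρ * x) ≤ ρ * (m * K) := by
            calc 2 * (ρ * x) = ρ * (2 * x) := by ring
              _ ≤ _ := Nat.mul_le_mul_left _ hxle
          omega)
      rw [e5] at h2
      exact ⟨V + y, x, h2, by omega, le_rfl⟩
  -- the last stage
  have e0 : K * m ≤ H := by
    calc K * m = m * K * 1 := by ring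
      _ ≤ m * K * K := Nat.mul_le_mul_left _ hK1
      _ = H := hH.symm
  obtain ⟨V, y, h1, hVy, hy⟩ := key a le_rfl (H - K * m) (by
    rw [Nat.sub_self, pow_zero, mul_one]
    omega)
  rw [Nat.sub_self, pow_zero, mul_one] at hVy hy
  have e5 : H - K * m + K * m = H := Nat.sub_add_cancel e0
  have hmK : m ≤ m * K := Nat.le_mul_of_pos_right _ hK1
  have h2 := h1.next hB hm hK1 (by rw [e5])
    (by
      have := hblk 0 (by omega)
      rw [pow_zero, mul_one] at this
      exact this) (by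
      rw [e5, hS]
      have f4 : ρ * (V + 2 * y) ≤ ρ * (m * K) := Nat.mul_le_mul_left _ (by omega)
      have f5 : ρ * m ≤ ρ * (m * K) := Nat.mul_le_mul_left _ hmK
      omega)
  rw [e5] at h2
  obtain ⟨Δ, t, τ, q, b, hC, hΔ1, hΔ, ht, hτ, hq, hb⟩ := h2
  have f6 : ρ * (V + y) ≤ ρ * (m * K) := Nat.mul_le_mul_left _ (by omega)
  refine hC.toLv.mono ht le_rfl ?_ ?_ le_rfl
  · omega
  · have h7 : 4 * 3 ≤ K * (a + 1) := by
      apply Nat.mul_le_mul
      · calc 4 = 2 ^ 2 := by norm_num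
          _ ≤ 2 ^ a := Nat.pow_le_pow_right (by norm_num) ha
          _ = K := hK.symm
      · omega
    omega

end Pool.Agent.H116.HL
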