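import Pool.Agent.H116.HL.Seq2

/-!
# All levels
-/

set_option linter.unusedSectionVars false
set_option linter.unusedVariables false
set_option maxHeartbeats 4000000

namespace Pool.Agent.H116.HL

open Finset Filter Topology Pool.Agent.N35.HL

/-- polynomial factors against `exp (i / 6)` -/
lemma poly_exp (D : ℝ) : ∀ᶠ i : ℕ in atTop, D * (i:ℝ) ^ 2 ≤ Real.exp ((i:ℝ) / 6) := by
  have h0 : (1:ℝ) < Real.exp (1 / 6) := by
    have := Real.add_one_le_exp ((1:ℝ) / 6)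
    linarith
  have h1 := (isLittleO_pow_const_const_pow_of_one_lt (R := ℝ) 2 h0).bound
    (c := 1 / (|D| + 1)) (by positivity)
  filter_upwards [h1] with i hi
  have h2 : Real.exp (1 / 6) ^ i = Real.exp ((i:ℝ) / 6) := by
    rw [← Real.exp_nat_mul]; congr 1; ring
  simp only [Real.norm_eq_abs] at hi
  rw [h2, abs_of_nonneg (by positivity : (0:ℝ) ≤ (i:ℝ) ^ 2),
    abs_of_nonneg (Real.exp_nonneg ((i:ℝ) / 6))] at hi
  have h8 : 0 < |D| + 1 := by positivity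
  have h9 : (|D| + 1) * (i:ℝ) ^ 2 ≤ Real.exp ((i:ℝ) / 6) := by
    calc (|D| + 1) * (i:ℝ) ^ 2 ≤ (|D| + 1) * (1 / (|D| + 1) * Real.exp ((i:ℝ) / 6)) :=
          mul_le_mul_of_nonneg_left hi h8.le
      _ = Real.exp ((i:ℝ) / 6) := by field_simp
  have h10 : D * (i:ℝ) ^ 2 ≤ (|D| + 1) * (i:ℝ) ^ 2 :=
    mul_le_mul_of_nonneg_right (by linarith [le_abs_self D]) (by positivity)
  linarith

/-- few copies of the base block -/
theorem base_levels : ∃ B C₀ i₀ : ℕ, 1 ≤ B ∧ ∀ i ≥ i₀, Lv (C₀ * i ^ 2) (C₀ * i ^ 2) (C₀ * i ^ 2)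
    (B * i - 1) (Real.exp (1 / 2 * (i:ℝ))) := by
  obtain ⟨g, E, P, Rz, Δ, U, M, hI, hr⟩ := base_block
  have h0 : Lv g Rz (U * M) (50 * P) 2 :=
    ⟨g, E, P, Rz, Δ, U, M, hI, Nat.lt_two_pow_self.le, Nat.lt_two_pow_self.le,
      Nat.lt_two_pow_self.le, Nat.lt_two_pow_self.le, hr⟩
  set w := U * M with hw
  set b := 50 * P with hb
  set C₀ := 200 + g + 10 * Rz + 2 * w + 6 * b with hC₀
  obtain ⟨i₀, hi₀⟩ := (poly_exp (4.3 * (C₀ + 4))).exists_forall_of_atTop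
  refine ⟨b + 7, C₀, i₀ + 1, by omega, ?_⟩
  intro i hi
  have hi1 : 1 ≤ i := by omega
  have h1 := h0.step (by norm_num) i hi1
  have hii : i ≤ i ^ 2 := Nat.le_self_pow (by norm_num) i
  have h1i : 1 ≤ i ^ 2 := Nat.one_le_pow _ _ hi1
  have hrr : 41 + w + 3 * Rz + i * (35 + Rz) + b * (i ^ 2 + 2 * i) ≤ C₀ * i ^ 2 := by
    have a1 : (41 + w + 3 * Rz) * 1 ≤ (41 + w + 3 * Rz) * i ^ 2 := Nat.mul_le_mul_left _ h1i
    have a2 : i * (35 + Rz) ≤ i ^ 2 * (35 + Rz) := Nat.mul_le_mul_right _ hii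
    have a3 : b * (i ^ 2 + 2 * i) ≤ b * (i ^ 2 + 2 * i ^ 2) := by
      apply Nat.mul_le_mul_left; omega
    calc _ ≤ (41 + w + 3 * Rz) * i ^ 2 + i ^ 2 * (35 + Rz) + b * (i ^ 2 + 2 * i ^ 2) := by omega
      _ = (76 + w + 4 * Rz + 3 * b) * i ^ 2 := by ring
      _ ≤ C₀ * i ^ 2 := Nat.mul_le_mul_right _ (by omega)
  refine h1.mono ?_ hrr ?_ ?_ ?_
  · have a2 : i * (18 + g + Rz) ≤ i ^ 2 * (18 + g + Rz) := Nat.mul_le_mul_right _ hii
    calc _ ≤ 1 * i ^ 2 + i ^ 2 * (18 + g + Rz) + b * i ^ 2 := by omega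
      _ = (19 + g + Rz + b) * i ^ 2 := by ring
      _ ≤ C₀ * i ^ 2 := Nat.mul_le_mul_right _ (by omega)
  · have a1 : (48 + w + 3 * Rz) * 1 ≤ (48 + w + 3 * Rz) * i ^ 2 := Nat.mul_le_mul_left _ h1i
    have a2 : i * (131 + 6 * Rz + w) ≤ i ^ 2 * (131 + 6 * Rz + w) := Nat.mul_le_mul_right _ hii
    have a3 : b * (4 * i ^ 2 + 2 * i) ≤ b * (4 * i ^ 2 + 2 * i ^ 2) := by
      apply Nat.mul_le_mul_left; omega
    calc _ ≤ (48 + w + 3 * Rz) * i ^ 2 + i ^ 2 * (131 + 6 * Rz + w) +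
          b * (4 * i ^ 2 + 2 * i ^ 2) := by omega
      _ = (179 + 2 * w + 9 * Rz + 6 * b) * i ^ 2 := by ring
      _ ≤ C₀ * i ^ 2 := Nat.mul_le_mul_right _ (by omega)
  · have : (b + 7) * i = i * b + 7 * i := by ring
    omega
  · have h2 := hi₀ i (by omega)
    set r' := 41 + w + 3 * Rz + i * (35 + Rz) + b * (i ^ 2 + 2 * i) with hr'
    have h3 : (r':ℝ) ≤ C₀ * (i:ℝ) ^ 2 := by exact_mod_cast hrr
    have h4 : (1:ℝ) ≤ (i:ℝ) ^ 2 := by exact_mod_cast h1i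
    rw [le_div_iff₀ (by positivity)]
    have h5 : (2:ℝ) ^ i = Real.exp (Real.log 2 * i) := by
      rw [mul_comm, Real.exp_nat_mul, Real.exp_log (by norm_num)]
    have l2a := Real.log_two_gt_d9
    have hi0 : (0:ℝ) ≤ i := Nat.cast_nonneg _
    have h6 : Real.exp (1 / 2 * (i:ℝ)) * Real.exp ((i:ℝ) / 6) ≤ 2 ^ i := by
      rw [← Real.exp_add, h5]
      apply Real.exp_le_exp.mpr
      nlinarith
    have h7 : 4.3 * ((r':ℝ) + 4) ≤ Real.exp ((i:ℝ) / 6) := by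
      refine le_trans ?_ h2
      nlinarith
    have h8 := mul_le_mul_of_nonneg_left h7 (Real.exp_nonneg (1 / 2 * (i:ℝ)))
    have h9 : 0 ≤ Real.exp (1 / 2 * (i:ℝ)) * ((r':ℝ) + 4) := by positivity
    linarith

/-- polynomial factors against the gain of one level -/
lemma beta_exp (D : ℝ) : ∀ᶠ j : ℕ in atTop,
    D * ((2:ℝ) ^ j) ^ 4 ≤ Real.exp ((gj (j - 1) - gj j) * 2 ^ j) := by
  have h1 := (isLittleO_pow_const_const_pow_of_one_lt (R := ℝ) 3 (by norm_num : (1:ℝ) < 2)).bound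
    (c := 1 / (8 * (|D| + 4))) (by positivity)
  filter_upwards [h1, eventually_ge_atTop 1] with j hj hj1
  simp only [Real.norm_eq_abs] at hj
  rw [abs_of_nonneg (by positivity : (0:ℝ) ≤ (j:ℝ) ^ 3),
    abs_of_nonneg (by positivity : (0:ℝ) ≤ (2:ℝ) ^ j)] at hj
  have hj0 : (1:ℝ) ≤ j := by exact_mod_cast hj1
  have h8 : 0 < |D| + 4 := by positivity
  have h2 : 8 * (|D| + 4) * (j:ℝ) ^ 3 ≤ 2 ^ j := by
    calc 8 * (|D| + 4) * (j:ℝ) ^ 3 ≤ 8 * (|D| + 4) * (1 / (8 * (|D| + 4)) * 2 ^ j) :=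
          mul_le_mul_of_nonneg_left hj (by positivity)
      _ = 2 ^ j := by field_simp
  have h3 : gj (j - 1) - gj j = 1 / (4 * (j * (j + 1))) := by
    unfold gj
    rw [Nat.cast_sub hj1, Nat.cast_one, sub_add_cancel]
    have : (j:ℝ) ≠ 0 := by positivity
    field_simp
    ring
  have h4 : (|D| + 4) * j ≤ (gj (j - 1) - gj j) * 2 ^ j := by
    rw [h3, one_div_mul_eq_div, le_div_iff₀ (by positivity)]
    refine le_trans ?_ h2
    have : (j:ℝ) * (j + 1) ≤ 2 * j ^ 2 := by nlinarith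
    have h9 : 0 ≤ (|D| + 4) * j := by positivity
    nlinarith
  refine le_trans ?_ (Real.exp_le_exp.mpr h4)
  have h5 : (|D| + 4) * (j:ℝ) = |D| * j + 4 * j := by ring
  rw [h5, Real.exp_add]
  have h6 : |D| ≤ Real.exp (|D| * j) := by
    have a1 := Real.add_one_le_exp (|D| * j)
    have a2 : |D| * 1 ≤ |D| * j := mul_le_mul_of_nonneg_left hj0 (abs_nonneg _)
    linarith
  have h7 : ((2:ℝ) ^ j) ^ 4 ≤ Real.exp (4 * j) := by
    have a1 : (2:ℝ) ^ j ≤ Real.exp j := by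
      have a2 : Real.exp (j:ℝ) = Real.exp 1 ^ j := by
        rw [← Real.exp_nat_mul]; ring_nf
      rw [a2]
      apply pow_le_pow_left₀ (by norm_num)
      have := Real.add_one_le_exp (1:ℝ)
      linarith
    calc ((2:ℝ) ^ j) ^ 4 ≤ (Real.exp j) ^ 4 := pow_le_pow_left₀ (by positivity) a1 4
      _ = Real.exp (4 * j) := by rw [← Real.exp_nat_mul]; norm_num
  calc D * ((2:ℝ) ^ j) ^ 4 ≤ |D| * ((2:ℝ) ^ j) ^ 4 :=
        mul_le_mul_of_nonneg_right (le_abs_self D) (by positivity)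
    _ ≤ Real.exp (|D| * j) * Real.exp (4 * j) :=
        mul_le_mul h6 h7 (by positivity) (Real.exp_nonneg _)

/-- the blocks of all levels -/
theorem all_levels : ∃ B μ Ξ : ℕ, 1 ≤ B ∧ 1 ≤ μ ∧ 1 ≤ Ξ ∧ ∀ j, GoodL B μ Ξ j := by
  obtain ⟨B, C₀, i₀, hB, hbase⟩ := base_levels
  set μ := i₀ + 1 with hμ
  set C₁ := 1000 * (140 + 7 * B) with hC₁
  obtain ⟨j₁, hj₁⟩ := (beta_exp (4.3 * (((C₁ + C₀ * μ : ℕ):ℝ) * (1 + 2 ^ 35) ^ 2 + 1) * μ +
    4.3 * 4)).exists_forall_of_atTop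
  set j₀ := max j₁ (2 ^ 35) with hj₀
  set Ξ := C₁ + C₀ * (μ * 2 ^ j₀) with hΞ
  refine ⟨B, μ, Ξ, hB, by omega, by omega, ?_⟩
  intro j
  induction j using Nat.strong_induction_on with
  | _ j ih =>
  rcases Nat.lt_or_ge j j₀ with hj | hj
  · -- few levels
    have h1 := hbase (μ * 2 ^ j) (by
      have : μ * 1 ≤ μ * 2 ^ j := Nat.mul_le_mul_left _ Nat.one_le_two_pow
      omega)
    have hT : C₀ * (μ * 2 ^ j) ≤ Rj Ξ j := by
      have h2 : C₀ * (μ * 2 ^ j) ≤ Ξ := by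
        have : C₀ * (μ * 2 ^ j) ≤ C₀ * (μ * 2 ^ j₀) := by
          apply Nat.mul_le_mul_left
          apply Nat.mul_le_mul_left
          exact Nat.pow_le_pow_right (by norm_num) hj.le
        omega
      have h3 : (Ξ:ℝ) ≤ Rj Ξ j := by
        have h4 : 1 ≤ F2 (Jr j) := by
          unfold F2
          have hll := Jr_log j
          have h96' := log_mul_le (Jr_pos j).le hll
          rw [le_div_iff₀ (by linarith)]
          nlinarith
        have h5 := Nat.le_ceil ((Ξ:ℝ) * F2 (Jr j))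
        unfold Rj
        have h6 : (Ξ:ℝ) * 1 ≤ Ξ * F2 (Jr j) := mul_le_mul_of_nonneg_left h4 (Nat.cast_nonneg _)
        linarith
      have h4 : Ξ ≤ Rj Ξ j := by exact_mod_cast h3
      omega
    have hRT : Rj Ξ j ≤ Tj Ξ j := by
      unfold Rj Tj
      apply Nat.ceil_mono
      have hll := Jr_log j
      have h96' := log_mul_le (Jr_pos j).le hll
      have hJ := Jr_pos j
      have e : F3 (Jr j) = F2 (Jr j) * (Jr j / Real.log (Jr j)) := by
        unfold F2 F3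
        field_simp
      have h1 : 1 ≤ Jr j / Real.log (Jr j) := by
        rw [le_div_iff₀ (by linarith)]; linarith
      have h2 := mul_le_mul_of_nonneg_left h1 (F2_nonneg j)
      rw [e]
      have h3 := mul_le_mul_of_nonneg_left h2 (Nat.cast_nonneg Ξ : (0:ℝ) ≤ Ξ)
      have h4 : 0 ≤ (Ξ:ℝ) * (F2 (Jr j) * (Jr j / Real.log (Jr j))) := by
        have := F2_nonneg j
        positivity
      linarith
    have e : C₀ * (μ * 2 ^ j) ^ 2 = C₀ * (μ * 2 ^ j) * (μ * 2 ^ j) := by ring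
    rw [e] at h1
    unfold GoodL
    refine h1.mono ?_ ?_ ?_ le_rfl ?_
    · exact Nat.mul_le_mul_right _ (hT.trans hRT)
    · exact Nat.mul_le_mul_right _ hT
    · exact Nat.mul_le_mul_right _ (hT.trans hRT)
    · apply Real.exp_le_exp.mpr
      exact mul_le_mul_of_nonneg_right (gj_le j) (Nat.cast_nonneg _)
  · -- all other levels
    have hj35 : 2 ^ 35 ≤ j := le_trans (le_max_right _ _) hj
    have hj1' : j₁ ≤ j := le_trans (le_max_left _ _) hj
    have hjr : (2:ℝ) ^ 35 ≤ j := by exact_mod_cast hj35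
    have hll := Jr_log j
    have h96' := log_mul_le (Jr_pos j).le hll
    apply GoodL.step hB (by omega) (by omega) _ _ ih
    · have e : Jr j = (j:ℝ) + 2 ^ 35 := rfl
      linarith
    · have h1 := hj₁ j hj1'
      set X : ℝ := (2:ℝ) ^ j with hX
      have hX1 : 1 ≤ X := one_le_pow₀ (by norm_num)
      have hjX : (j:ℝ) ≤ X := by
        have : j ≤ 2 ^ j := Nat.lt_two_pow_self.le
        rw [hX]
        exact_mod_cast this
      have hμr : (1:ℝ) ≤ μ := by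
        have : 1 ≤ μ := by omega
        exact_mod_cast this
      have e1 : ((μ * 2 ^ j : ℕ) : ℝ) = μ * X := by push_cast; rw [hX]
      rw [e1]
      have h2 : Real.exp ((gj (j - 1) - gj j) * X) ≤
          Real.exp ((gj (j - 1) - gj j) * (μ * X)) := by
        apply Real.exp_le_exp.mpr
        apply mul_le_mul_of_nonneg_left _ (by linarith [gj_anti (Nat.sub_le j 1)])
        nlinarith
      refine le_trans ?_ (h1.trans h2)
      -- polynomial estimate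
      have hΞX : (Ξ:ℝ) ≤ ((C₁ + C₀ * μ : ℕ):ℝ) * X := by
        have h3 : Ξ ≤ (C₁ + C₀ * μ) * 2 ^ j := by
          rw [hΞ]
          have a1 : C₁ * 1 ≤ C₁ * 2 ^ j := Nat.mul_le_mul_left _ Nat.one_le_two_pow
          have a2 : C₀ * (μ * 2 ^ j₀) ≤ C₀ * (μ * 2 ^ j) := by
            apply Nat.mul_le_mul_left
            apply Nat.mul_le_mul_left
            exact Nat.pow_le_pow_right (by norm_num) hj
          have a3 : (C₁ + C₀ * μ) * 2 ^ j = C₁ * 2 ^ j + C₀ * (μ * 2 ^ j) := by ring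
          omega
        rw [hX]
        exact_mod_cast h3
      have hF : F2 (Jr j) ≤ ((1 + 2 ^ 35) * X) ^ 2 := by
        have a1 : F2 (Jr j) ≤ (Jr j) ^ 2 := by
          unfold F2
          exact div_le_self (by positivity) (by linarith)
        have a2 : Jr j ≤ (1 + 2 ^ 35) * X := by
          unfold Jr
          nlinarith
        exact a1.trans (pow_le_pow_left₀ (Jr_pos j).le a2 2)
      set Z : ℝ := ((C₁ + C₀ * μ : ℕ):ℝ) with hZ
      have hZ0 : 0 ≤ Z := Nat.cast_nonneg _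
      have hR : (Rj Ξ j : ℝ) ≤ Z * (1 + 2 ^ 35) ^ 2 * X ^ 3 + 1 := by
        have a1 : (Rj Ξ j : ℝ) < Ξ * F2 (Jr j) + 1 := by
          unfold Rj
          exact Nat.ceil_lt_add_one (mul_nonneg (Nat.cast_nonneg _) (F2_nonneg _))
        have a2 : (Ξ:ℝ) * F2 (Jr j) ≤ (Z * X) * ((1 + 2 ^ 35) * X) ^ 2 :=
          mul_le_mul hΞX hF (F2_nonneg _) (by positivity)
        have a3 : (Z * X) * ((1 + 2 ^ 35) * X) ^ 2 = Z * (1 + 2 ^ 35) ^ 2 * X ^ 3 := by ring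
        linarith
      have hX3 : (1:ℝ) ≤ X ^ 3 := one_le_pow₀ hX1
      have hX4 : (1:ℝ) ≤ X ^ 4 := one_le_pow₀ hX1
      have h5 : (Rj Ξ j : ℝ) ≤ (Z * (1 + 2 ^ 35) ^ 2 + 1) * X ^ 3 := by
        have : (Z * (1 + 2 ^ 35) ^ 2 + 1) * X ^ 3 = Z * (1 + 2 ^ 35) ^ 2 * X ^ 3 + X ^ 3 := by ring
        linarith
      have h6 : (Rj Ξ j : ℝ) * (μ * X) ≤ (Z * (1 + 2 ^ 35) ^ 2 + 1) * X ^ 3 * (μ * X) :=
        mul_le_mul_of_nonneg_right h5 (by positivity)
      have e2 : (4.3 * (Z * (1 + 2 ^ 35) ^ 2 + 1) * μ + 4.3 * 4) * X ^ 4 =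
        4.3 * ((Z * (1 + 2 ^ 35) ^ 2 + 1) * X ^ 3 * (μ * X) + 4 * X ^ 4) := by ring
      rw [e2]
      apply mul_le_mul_of_nonneg_left _ (by norm_num)
      linarith

end Pool.Agent.H116.HL
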