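import Pool.Agent.H116.HL.Level2
import Pool.Agent.H116.HL.Grow
import Pool.Agent.H116.HL.Ineq

/-!
# The sequence of levels
-/

set_option linter.unusedSectionVars false
set_option linter.unusedVariables false
set_option maxHeartbeats 4000000

namespace Pool.Agent.H116.HL

open Finset Filter Topology Pool.Agent.N35.HL

/-- the shifted index -/
noncomputable def Jr (j : ℕ) : ℝ := (j:ℝ) + 2 ^ 35

/-- number of lines and margins of level `j`, per multiplicity -/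
noncomputable def Tj (Ξ j : ℕ) : ℕ := ⌈4 * (Ξ:ℝ) * F3 (Jr j)⌉₊

/-- resolution of level `j`, per multiplicity -/
noncomputable def Rj (Ξ j : ℕ) : ℕ := ⌈(Ξ:ℝ) * F2 (Jr j)⌉₊

/-- rate of level `j` -/
noncomputable def gj (j : ℕ) : ℝ := 1 / 4 * (1 + 1 / ((j:ℝ) + 1))

/-- the block of level `j` exists -/
def GoodL (B μ Ξ j : ℕ) : Prop :=
  Lv (Tj Ξ j * (μ * 2 ^ j)) (Rj Ξ j * (μ * 2 ^ j)) (Tj Ξ j * (μ * 2 ^ j)) (B * (μ * 2 ^ j) - 1)
    (Real.exp (gj j * ((μ * 2 ^ j : ℕ) : ℝ)))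

lemma Jr_ge (j : ℕ) : (2:ℝ) ^ 35 ≤ Jr j := by
  unfold Jr
  have : (0:ℝ) ≤ j := Nat.cast_nonneg j
  linarith

lemma Jr_pos (j : ℕ) : 0 < Jr j := lt_of_lt_of_le (by norm_num) (Jr_ge j)

lemma Jr_log (j : ℕ) : 24 ≤ Real.log (Jr j) := by
  have h1 := Real.log_le_log (by norm_num) (Jr_ge j)
  rw [Real.log_pow] at h1
  have l2a := Real.log_two_gt_d9
  push_cast at h1
  linarith

lemma Jr_mono {i j : ℕ} (h : i ≤ j) : Jr i ≤ Jr j := by
  unfold Jr
  have : (i:ℝ) ≤ j := by exact_mod_cast h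
  linarith

lemma Tj_mono (Ξ : ℕ) {i j : ℕ} (h : i ≤ j) : Tj Ξ i ≤ Tj Ξ j := by
  unfold Tj
  apply Nat.ceil_mono
  apply mul_le_mul_of_nonneg_left _ (by positivity)
  exact F3_mono (Jr_pos i) (by linarith [Jr_log i]) (Jr_mono h)

lemma Rj_mono (Ξ : ℕ) {i j : ℕ} (h : i ≤ j) : Rj Ξ i ≤ Rj Ξ j := by
  unfold Rj
  apply Nat.ceil_mono
  apply mul_le_mul_of_nonneg_left _ (by positivity)
  exact F2_mono (Jr_pos i) (by linarith [Jr_log i]) (Jr_mono h)

lemma gj_anti {i j : ℕ} (h : i ≤ j) : gj j ≤ gj i := by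
  unfold gj
  have h1 : (i:ℝ) + 1 ≤ j + 1 := by
    have : (i:ℝ) ≤ j := by exact_mod_cast h
    linarith
  have h2 : 1 / ((j:ℝ) + 1) ≤ 1 / ((i:ℝ) + 1) := one_div_le_one_div_of_le (by positivity) h1
  linarith

lemma gj_le (j : ℕ) : gj j ≤ 1 / 2 := by
  have h := gj_anti (Nat.zero_le j)
  have h0 : gj 0 = 1 / 2 := by unfold gj; norm_num
  linarith

lemma gj_ge (j : ℕ) : 1 / 4 ≤ gj j := by
  unfold gj
  have : (0:ℝ) ≤ 1 / ((j:ℝ) + 1) := by positivity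
  linarith

lemma F2_nonneg (j : ℕ) : 0 ≤ F2 (Jr j) := by
  unfold F2
  have := Jr_pos j
  have := Jr_log j
  positivity

lemma F3_nonneg (j : ℕ) : 0 ≤ F3 (Jr j) := by
  unfold F3
  have := Jr_pos j
  positivity

/-- one level -/
theorem GoodL.step {B μ Ξ j : ℕ} (hB : 1 ≤ B) (hμ : 1 ≤ μ) (hΞ : 1000 * (140 + 7 * B) ≤ Ξ)
    (hj1 : 4 * Real.log (Jr j) ≤ j)
    (hβ : 4.3 * ((Rj Ξ j : ℝ) * ((μ * 2 ^ j : ℕ) : ℝ) + 4) ≤
      Real.exp ((gj (j - 1) - gj j) * ((μ * 2 ^ j : ℕ) : ℝ)))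
    (ih : ∀ i < j, GoodL B μ Ξ i) : GoodL B μ Ξ j := by
  have hJ0 := Jr_pos j
  have hJl := Jr_log j
  obtain ⟨a, ha1, ha2, ha3, ha4, ha5⟩ := exists_a hJ0.le hJl
  set J := Jr j with hJ
  set l := Real.log J with hl
  have hl0 : 0 < l := by linarith
  have h96 : 96 * l ≤ J := log_mul_le hJ0.le hJl
  set Y := J / l with hY
  have hY1 : 1 ≤ Y := by rw [hY, le_div_iff₀ hl0]; linarith
  have hJ1 : 1 ≤ J := by linarith
  have ha2' : 2 ≤ a := by
    have : (2:ℝ) ≤ a := by linarith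
    exact_mod_cast this
  have h2aj : 2 * a ≤ j := by
    have : (2 * a : ℝ) ≤ j := by linarith
    exact_mod_cast this
  have hj0 : 1 ≤ j := by omega
  set m := μ * 2 ^ (j - 2 * a) with hm
  have hm1 : 1 ≤ m := Nat.mul_pos hμ Nat.one_le_two_pow
  set K := 2 ^ a with hK
  have hH : μ * 2 ^ j = m * K * K := by
    rw [hm, hK, mul_assoc, mul_assoc, ← pow_add, ← pow_add]
    congr 2
    omega
  set H := μ * 2 ^ j with hHdef
  set ω := Tj Ξ (j - a) with hω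
  set ρ := Rj Ξ (j - a) with hρ
  -- real facts
  have hΞr : (1000:ℝ) * (140 + 7 * B) ≤ Ξ := by exact_mod_cast hΞ
  have hBr : (1:ℝ) ≤ B := by exact_mod_cast hB
  have hΞ0 : (0:ℝ) ≤ Ξ := Nat.cast_nonneg _
  have hΞ1 : (1:ℝ) ≤ Ξ := by linarith
  have ha0 : (0:ℝ) ≤ a := Nat.cast_nonneg _
  have hJa : Jr (j - a) = J - a := by
    rw [hJ]
    unfold Jr
    rw [Nat.cast_sub (by omega)]
    ring
  have e2 : F2 J = J * Y := by unfold F2; rw [hY, hl]; ring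
  have e3 : F3 J = J * Y ^ 2 := by
    unfold F3; rw [hY, hl]
    field_simp
  have hF2 := F2_diff hJ0.le hJl ha0 ha5
  have hF3 := F3_diff hJ0.le hJl ha0 ha5
  rw [← hl, e2] at hF2
  rw [← hl, e3] at hF3
  have hal : 129 / 100 * J ≤ a * J / l := by
    rw [le_div_iff₀ hl0]
    nlinarith
  have hal2 : 129 / 100 * (J * Y) ≤ a * J ^ 2 / l ^ 2 := by
    have : a * J ^ 2 / l ^ 2 = (a * J / l) * Y := by rw [hY]; field_simp
    rw [this]
    have := mul_le_mul_of_nonneg_right hal (by linarith : 0 ≤ Y)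
    linarith
  have hρr : (ρ:ℝ) ≤ Ξ * (J * Y) - 129 / 100 * (Ξ * J) + 1 := by
    have h1 : (ρ:ℝ) < Ξ * F2 (Jr (j - a)) + 1 := by
      rw [hρ]; unfold Rj
      exact Nat.ceil_lt_add_one (mul_nonneg hΞ0 (F2_nonneg _))
    rw [hJa] at h1
    have h2 : (Ξ:ℝ) * F2 (J - a) ≤ Ξ * (J * Y - 129 / 100 * J) :=
      mul_le_mul_of_nonneg_left (by linarith) hΞ0
    linarith
  have hωr : (ω:ℝ) ≤ 4 * (Ξ * (J * Y ^ 2)) - 1032 / 100 * (Ξ * (J * Y)) + 1 := by
    have h1 : (ω:ℝ) < 4 * Ξ * F3 (Jr (j - a)) + 1 := by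
      rw [hω]; unfold Tj
      exact Nat.ceil_lt_add_one (mul_nonneg (by positivity) (F3_nonneg _))
    rw [hJa] at h1
    have h2 : 4 * (Ξ:ℝ) * F3 (J - a) ≤ 4 * Ξ * (J * Y ^ 2 - 258 / 100 * (J * Y)) :=
      mul_le_mul_of_nonneg_left (by linarith) (by positivity)
    linarith
  have hKr : ((K:ℕ):ℝ) = 2 ^ a := by rw [hK]; push_cast; ring
  have hKY : 64 * Y ≤ K := by rw [hKr]; exact ha1
  have hK1 : (1:ℝ) ≤ K := by linarith
  have hA : (K:ℝ) * (a + 1) ≤ 256 * J := by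
    have h1 : (K:ℝ) * (a + 1) ≤ 128 * Y * (2 * l) := by
      apply mul_le_mul _ ha4 (by positivity) (by positivity)
      rw [hKr]; exact ha2
    have h2 : 128 * Y * (2 * l) = 256 * J := by rw [hY]; field_simp; ring
    linarith
  have hωρ : ω ≤ ρ * 2 ^ a := by
    have hJ'0 : 0 < J - a := by linarith
    have hJ'l : 1 ≤ Real.log (J - a) := by
      have := Jr_log (j - a)
      rw [hJa] at this
      linarith
    have h1 : (ω:ℝ) < 4 * Ξ * F3 (J - a) + 1 := by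
      have := Nat.ceil_lt_add_one (a := 4 * (Ξ:ℝ) * F3 (Jr (j - a)))
        (mul_nonneg (by positivity) (F3_nonneg _))
      rw [hJa] at this
      rw [hω]; unfold Tj
      rw [hJa]
      exact this
    have h2 : (Ξ:ℝ) * F2 (J - a) ≤ ρ := by
      have := Nat.le_ceil ((Ξ:ℝ) * F2 (Jr (j - a)))
      rw [hJa] at this
      rw [hρ]; unfold Rj
      rw [hJa]
      exact this
    have h3 : F3 (J - a) = F2 (J - a) * ((J - a) / Real.log (J - a)) := by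
      unfold F2 F3
      field_simp
    have h4 : (J - a) / Real.log (J - a) ≤ Y := by
      rw [hY, hl]
      exact F1_mono hJ'0 hJ'l (by linarith)
    have hF20 : 0 ≤ F2 (J - a) := by
      have := F2_nonneg (j - a)
      rwa [hJa] at this
    have h5 : 1 ≤ Ξ * F2 (J - a) := by
      have h6 : 1 ≤ F2 (J - a) := by
        unfold F2
        have hll := Jr_log (j - a)
        have h96' := log_mul_le (Jr_pos (j - a)).le hll
        rw [hJa] at h96' hll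
        rw [le_div_iff₀ (by linarith)]
        nlinarith
      nlinarith
    have h6 : (ω:ℝ) ≤ ρ * 2 ^ a := by
      calc (ω:ℝ) ≤ 4 * Ξ * F3 (J - a) + 1 := h1.le
        _ ≤ 4 * (Ξ * F2 (J - a) * Y) + 1 := by
            rw [h3]
            have := mul_le_mul_of_nonneg_left h4 (mul_nonneg hΞ0 hF20)
            linarith
        _ ≤ 64 * (Ξ * F2 (J - a) * Y) := by
            have : 1 * 1 ≤ Ξ * F2 (J - a) * Y := mul_le_mul h5 hY1 (by norm_num) (by linarith)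
            linarith
        _ = Ξ * F2 (J - a) * (64 * Y) := by ring
        _ ≤ ρ * 2 ^ a := by
            apply mul_le_mul h2 ha1 (by positivity) (by positivity)
    exact_mod_cast h6
  have hblk : ∀ e < a, Lv (ω * (m * 2 ^ e)) (ρ * (m * 2 ^ e)) (ω * (m * 2 ^ e))
      (B * (m * 2 ^ e) - 1) (Real.exp (gj (j - 1) * ((m * 2 ^ e : ℕ) : ℝ))) := by
    intro e he
    have h1 := ih (j - 2 * a + e) (by omega)
    unfold GoodL at h1
    have h2 : μ * 2 ^ (j - 2 * a + e) = m * 2 ^ e := by rw [hm, pow_add]; ring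
    rw [h2] at h1
    refine h1.mono ?_ ?_ ?_ le_rfl ?_
    · exact Nat.mul_le_mul_right _ (Tj_mono Ξ (by omega))
    · exact Nat.mul_le_mul_right _ (Rj_mono Ξ (by omega))
    · exact Nat.mul_le_mul_right _ (Tj_mono Ξ (by omega))
    · apply Real.exp_le_exp.mpr
      apply mul_le_mul_of_nonneg_right _ (Nat.cast_nonneg _)
      exact gj_anti (by omega)
  obtain ⟨S, hS⟩ : ∃ S, S = 75 + ρ * H + ω * m + K * (a + 1) * (33 + 2 * (B * H)) +
    5 * (ρ * (m * K)) + 5 * (B * H) := ⟨_, rfl⟩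
  have hlev := level (θ := ω) (γ := gj (j - 1)) hm1 ha2' hB hωρ hblk hK hH hS
  -- real versions
  have hHr : (H:ℝ) = m * K * K := by rw [hH]; push_cast; ring
  have hmr : (1:ℝ) ≤ m := by exact_mod_cast hm1
  have hHr1 : (1:ℝ) ≤ H := by
    have : 1 ≤ H := Nat.mul_pos hμ Nat.one_le_two_pow
    exact_mod_cast this
  have hA0 : 0 ≤ (K:ℝ) * (a + 1) := by positivity
  have hSr : (S:ℝ) = 75 + ρ * H + ω * m + K * (a + 1) * (33 + 2 * (B * H)) +
      5 * (ρ * (m * K)) + 5 * (B * H) := by rw [hS]; push_cast; ring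
  have hρr2 : (ρ:ℝ) ≤ Ξ * (J * Y) + 1 := by
    have : (0:ℝ) ≤ Ξ * J := by positivity
    linarith
  have hωr2 : (ω:ℝ) ≤ 4 * (Ξ * (J * Y ^ 2)) + 1 := by
    have : (0:ℝ) ≤ Ξ * (J * Y) := by positivity
    linarith
  have hR := R_real hJ1 hY1 hK1 hmr hHr hKY hA hA0 hBr hΞr hρr hωr2
  have hW := W_real hJ1 hY1 hK1 hmr hHr hKY hA hA0 hBr hΞr hρr2 hωr
  have hT := T_real hJ1 hY1 hHr1 hA hA0 hBr hΞr hρr2 hωr
  rw [← hSr] at hR hW
  have hRle : (Ξ:ℝ) * (J * Y) ≤ Rj Ξ j := by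
    unfold Rj; rw [← hJ, e2]; exact Nat.le_ceil _
  have hTle : 4 * ((Ξ:ℝ) * (J * Y ^ 2)) ≤ Tj Ξ j := by
    unfold Tj; rw [← hJ, e3]
    have := Nat.le_ceil (4 * (Ξ:ℝ) * (J * Y ^ 2))
    linarith
  have hRH : 1 + 2 * ((K:ℝ) * (a + 1)) + S ≤ Rj Ξ j * H :=
    hR.trans (mul_le_mul_of_nonneg_right hRle (by linarith))
  unfold GoodL
  rw [← hHdef]
  refine hlev.mono ?_ ?_ ?_ le_rfl ?_
  · have h1 := hT.trans (mul_le_mul_of_nonneg_right hTle (by linarith : (0:ℝ) ≤ H))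
    exact_mod_cast h1
  · exact_mod_cast hRH
  · have h1 := hW.trans (mul_le_mul_of_nonneg_right hTle (by linarith : (0:ℝ) ≤ H))
    have h2 : 8 + (S:ℝ) + 4 * (K * (a + 1)) + (ω + 5 * ρ + B) * H +
        K * (a + 1) * (99 + 5 * (B * H)) + 2 * (ρ * (m * K)) ≤ Tj Ξ j * H := h1
    exact_mod_cast h2
  · rw [le_div_iff₀ (by positivity)]
    have e1 : gj (j - 1) * (H:ℝ) = gj j * H + (gj (j - 1) - gj j) * H := by ring
    rw [e1, Real.exp_add]
    have h1 : (S:ℝ) + 4 ≤ Rj Ξ j * H + 4 := by linarith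
    have h2 := mul_le_mul_of_nonneg_left hβ (Real.exp_nonneg (gj j * (H:ℝ)))
    have h3 : Real.exp (gj j * (H:ℝ)) * ((S:ℝ) + 4) ≤
        Real.exp (gj j * (H:ℝ)) * (Rj Ξ j * H + 4) :=
      mul_le_mul_of_nonneg_left h1 (Real.exp_nonneg _)
    have h4 : 0 ≤ Real.exp (gj j * (H:ℝ)) * (Rj Ξ j * H + 4) := by positivity
    linarith

end Pool.Agent.H116.HL
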